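import Pool.Agent.NM70.Natural
import Pool.Agent.NM70.StepMat
import Pool.Agent.NM70.Select
import Pool.Agent.NM70.Spectral

set_option autoImplicit false

/-!
Second version of the rule: the weights of the augmenting paths are found by repeated doubling.
-/

namespace NM71

open Finset Classical NM70

variable {V : Type*} [Fintype V]

/-- The load of the vertex `v` for the path weights `W`. -/
noncomputable def ld (G M : SimpleGraph V) (m : ℕ) (W : PT V → ℕ) (v : V) : ℕ :=
  ∑ p ∈ (augs G M m).filter (fun p => v ∈ vs p), W p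

/-- The total load along the path `p`. -/
noncomputable def pld (G M : SimpleGraph V) (m : ℕ) (W : PT V → ℕ) (p : PT V) : ℕ :=
  ∑ v ∈ (vs p).toFinset, ld G M m W v

/-- The path weights after `k` doubling steps; a path is blocked once its total load is at least
`2 ^ K`. -/
noncomputable def WW (G M : SimpleGraph V) (m K : ℕ) : ℕ → PT V → ℕ
  | 0, _ => 1
  | k + 1, p => if pld G M m (WW G M m K k) p < 2 ^ K then 2 * WW G M m K k p
      else WW G M m K k p

/-- The number of doubling steps. -/
def KD (m : ℕ) : ℕ := 4 * m + 10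

/-- The final path weights. -/
noncomputable def WF (G M : SimpleGraph V) (m : ℕ) : PT V → ℕ := WW G M m (KD m) (KD m)

/-- The number of labels. -/
def ND (m : ℕ) : ℕ := 6 * 2 ^ KD m

/-- The path `p` is proposed. -/
def Prp (G M : SimpleGraph V) (m : ℕ) (lam : PT V → ℕ) (p : PT V) : Prop :=
  p ∈ augs G M m ∧ lam p < WF G M m p

/-- The path `p` is selected. -/
def Sel (G M : SimpleGraph V) (m : ℕ) (lam : PT V → ℕ) (p : PT V) : Prop :=
  Prp G M m lam p ∧ ∀ p', Prp G M m lam p' → p' ≠ p → ∀ v ∈ vs p, v ∉ vs p'

/-- One round: augment along all selected paths. -/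
def step (G M : SimpleGraph V) (m : ℕ) (lam : PT V → ℕ) : SimpleGraph V :=
  SimpleGraph.fromRel fun a b =>
    (M.Adj a b ∧ ∀ p, Sel G M m lam p → a ∉ vs p ∧ b ∉ vs p) ∨
      ∃ p, Sel G M m lam p ∧ newP p a b

/-- The matching after `t` rounds. -/
noncomputable def Mt (G : SimpleGraph V) (m : ℕ) (lam : ℕ → PT V → ℕ) : ℕ → SimpleGraph V
  | 0 => ⊥
  | t + 1 => step G (Mt G m lam t) m (lam t)

/-- The radius of one round. -/
def rad (m : ℕ) : ℕ := (4 * m + 2) * (4 * m + 12)

/-- The normalised load. -/
noncomputable def zz (G M : SimpleGraph V) (m : ℕ) (v : V) : ℝ :=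
  (ld G M m (WF G M m) v : ℝ) / 2 ^ KD m

/-- The accumulated load of a half path. -/
noncomputable def cc (z : V → ℝ) (q : List V) : ℝ := (q.map z).sum

/-- The living half paths: those with accumulated load less than `1 / 2`. -/
noncomputable def liv (G M : SimpleGraph V) (z : V → ℝ) (i : ℕ) (x : V) : Finset (List V) :=
  (halves G M i x).filter fun q => cc z q < 1 / 2

/-- The mass of the living half paths. -/
noncomputable def kf (G M : SimpleGraph V) (z : V → ℝ) (i : ℕ) (x : V) : ℝ :=
  ((liv G M z i x).card : ℝ) / 2 ^ i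

/-- The test function of the energy argument. -/
noncomputable def gz (G M : SimpleGraph V) (z : V → ℝ) (m : ℕ) (x : V) : ℝ :=
  ∑ i ∈ range (m + 1), (51 / 50 : ℝ) ^ i * kf G M z i x

/-- The test function of the random matching. -/
noncomputable def gg (G M : SimpleGraph V) (m : ℕ) (x : V) : ℝ := gz G M (zz G M m) m x

end NM71
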