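import Pool.Agent.NM71.Defs

set_option autoImplicit false

/-! V2 HAND A: the doubling weights. -/

namespace NM71

open Finset Classical NM70

variable {V : Type*} [Fintype V] {G M : SimpleGraph V}

theorem va_WW_succ (m K k : ℕ) (p : PT V) :
    WW G M m K (k + 1) p = WW G M m K k p +
      if pld G M m (WW G M m K k) p < 2 ^ K then WW G M m K k p else 0 := by
  rw [WW]
  split_ifs
  · ring
  · rfl

theorem WW_pos (m K k : ℕ) (p : PT V) : 0 < WW G M m K k p := by
  induction k with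
  | zero => simp [WW]
  | succ k ih => rw [va_WW_succ]; omega

theorem WW_le (m K k : ℕ) (p : PT V) : WW G M m K k p ≤ 2 ^ k := by
  induction k with
  | zero => simp [WW]
  | succ k ih =>
    rw [va_WW_succ, pow_succ]
    split_ifs <;> omega

theorem va_WW_mono (m K k j : ℕ) (p : PT V) : WW G M m K k p ≤ WW G M m K (k + j) p := by
  induction j with
  | zero => exact le_rfl
  | succ j ih =>
    rw [← add_assoc, va_WW_succ]
    omega

theorem va_ld_mono (m : ℕ) {W W' : PT V → ℕ} (h : ∀ p, W p ≤ W' p) (v : V) :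
    ld G M m W v ≤ ld G M m W' v :=
  sum_le_sum fun p _ => h p

theorem va_pld_mono (m : ℕ) {W W' : PT V → ℕ} (h : ∀ p, W p ≤ W' p) (p : PT V) :
    pld G M m W p ≤ pld G M m W' p :=
  sum_le_sum fun v _ => va_ld_mono m h v

theorem va_ld_add (m : ℕ) (W W' : PT V → ℕ) (v : V) :
    ld G M m (fun p => W p + W' p) v = ld G M m W v + ld G M m W' v := by
  unfold ld
  exact sum_add_distrib

theorem va_HH_ne {m : ℕ} {x : V} {l : List V} (h : l ∈ HH G M m x) : x ∈ l := by
  obtain ⟨i, -, hi⟩ := mem_HH.1 h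
  have h1 := halves_head hi
  cases l with
  | nil => simp at h1
  | cons a l =>
    simp only [List.head?_cons, Option.some.injEq] at h1
    rw [h1]
    exact List.mem_cons_self

/-- Every augmenting path is blocked in the end. -/
theorem blocked (m : ℕ) {p : PT V} (hp : p ∈ augs G M m) :
    2 ^ KD m ≤ pld G M m (WF G M m) p := by
  unfold WF
  set K := KD m
  have hv : p.1.1 ∈ vs p := by
    obtain ⟨-, -, h1, -⟩ := mem_augs.1 hp
    exact List.mem_append_left _ (va_HH_ne h1)
  by_cases hcase : ∀ k < K, pld G M m (WW G M m K k) p < 2 ^ K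
  · have h1 : ∀ k ≤ K, WW G M m K k p = 2 ^ k := by
      intro k
      induction k with
      | zero => intro _; simp [WW]
      | succ k ih =>
        intro hk
        rw [va_WW_succ, if_pos (hcase k (by omega)), ih (by omega), pow_succ]
        ring
    calc 2 ^ K = WW G M m K K p := (h1 K le_rfl).symm
      _ ≤ ld G M m (WW G M m K K) p.1.1 :=
          single_le_sum (f := fun p => WW G M m K K p) (fun _ _ => Nat.zero_le _)
            (mem_filter.2 ⟨hp, hv⟩)
      _ ≤ pld G M m (WW G M m K K) p :=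
          single_le_sum (f := fun v => ld G M m (WW G M m K K) v) (fun _ _ => Nat.zero_le _)
            (List.mem_toFinset.2 hv)
  · push Not at hcase
    obtain ⟨k, hk, h1⟩ := hcase
    refine h1.trans (va_pld_mono m (fun p => ?_) p)
    have h2 := va_WW_mono (G := G) (M := M) m K k (K - k) p
    rwa [Nat.add_sub_cancel' hk.le] at h2

theorem va_pair (m : ℕ) (W W' : PT V → ℕ) :
    ∑ v, ld G M m W v * ld G M m W' v = ∑ p ∈ augs G M m, W' p * pld G M m W p := by
  have h1 : ∀ v, ld G M m W v * ld G M m W' v =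
      ∑ p ∈ augs G M m, if v ∈ vs p then W' p * ld G M m W v else 0 := by
    intro v
    rw [← sum_filter, ← sum_mul, mul_comm]
    rfl
  rw [sum_congr rfl fun v _ => h1 v, sum_comm]
  refine sum_congr rfl fun p _ => ?_
  rw [pld, mul_sum, ← sum_filter]
  refine sum_congr ?_ fun _ _ => rfl
  ext v
  simp

theorem sum_ld_sq_eq (m : ℕ) (W : PT V → ℕ) :
    ∑ v, (ld G M m W v) ^ 2 = ∑ p ∈ augs G M m, W p * pld G M m W p := by
  rw [← va_pair]
  exact sum_congr rfl fun v _ => sq _

/-- Number of augmenting paths through a vertex. -/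
theorem va_card (hc : Cubic G) (hM : IsMat G M) (m : ℕ) (v : V) :
    ((augs G M m).filter (fun p => v ∈ vs p)).card ≤ 6 * (m + 2) ^ 2 * ((m + 1) * 4 ^ m) := by
  have hBB : 0 < BB m := Nat.factorial_pos _
  have h1 := h4_L hc hM m v
  have h2 : ∀ p ∈ (augs G M m).filter (fun p => v ∈ vs p),
      BB m ≤ ((m + 1) * 4 ^ m) * thr G M m p := by
    intro p hp
    obtain ⟨-, -, hp1, hp2⟩ := mem_augs.1 (mem_filter.1 hp).1
    have hw : ∀ l : List V, 1 ≤ wt m l := by
      intro l
      unfold wt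
      split_ifs
      · exact Nat.succ_le_of_lt (by positivity)
      · exact Nat.one_le_two_pow
    have hPhi : 0 < Phi G M m p.1.1 := by
      refine lt_of_lt_of_le (hw p.2.1) ?_
      exact single_le_sum (f := fun l => wt m l) (fun _ _ => Nat.zero_le _) hp1
    have hmax : 0 < max (Phi G M m p.1.1) (Phi G M m p.1.2) := lt_max_of_lt_left hPhi
    have hd := h4_dvd hc hM m p.1.1 p.1.2 hmax
    have hle : 2 ^ m * max (Phi G M m p.1.1) (Phi G M m p.1.2) ≤ (m + 1) * 4 ^ m := by
      calc 2 ^ m * max (Phi G M m p.1.1) (Phi G M m p.1.2) ≤ 2 ^ m * ((m + 1) * 2 ^ m) :=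
            Nat.mul_le_mul_left _ (max_le (h4_Phi_le hc hM m _) (h4_Phi_le hc hM m _))
        _ = (m + 1) * 4 ^ m := by
            rw [show (4 : ℕ) = 2 * 2 from rfl, mul_pow]; ring
    have h3 := Nat.mul_div_cancel' hd
    set Q := BB m / (2 ^ m * max (Phi G M m p.1.1) (Phi G M m p.1.2)) with hQ
    have h4 : Q ≤ thr G M m p := by
      unfold thr
      exact Nat.le_mul_of_pos_left _ (Nat.mul_pos (hw _) (hw _))
    calc BB m = 2 ^ m * max (Phi G M m p.1.1) (Phi G M m p.1.2) * Q := h3.symm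
      _ ≤ ((m + 1) * 4 ^ m) * thr G M m p := Nat.mul_le_mul hle h4
  have h5 : ((augs G M m).filter (fun p => v ∈ vs p)).card * BB m ≤
      6 * (m + 2) ^ 2 * ((m + 1) * 4 ^ m) * BB m := by
    calc ((augs G M m).filter (fun p => v ∈ vs p)).card * BB m
        = ∑ p ∈ (augs G M m).filter (fun p => v ∈ vs p), BB m := by
          rw [sum_const, smul_eq_mul]
      _ ≤ ∑ p ∈ (augs G M m).filter (fun p => v ∈ vs p), ((m + 1) * 4 ^ m) * thr G M m p :=
          sum_le_sum h2
      _ = ((m + 1) * 4 ^ m) * ∑ p ∈ (augs G M m).filter (fun p => v ∈ vs p), thr G M m p := by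
          rw [mul_sum]
      _ ≤ ((m + 1) * 4 ^ m) * (6 * (m + 2) ^ 2 * BB m) := Nat.mul_le_mul_left _ h1
      _ = _ := by ring
  exact Nat.le_of_mul_le_mul_right h5 hBB

theorem va_len {m : ℕ} {p : PT V} (hp : p ∈ augs G M m) : (vs p).length ≤ 4 * m + 2 := by
  obtain ⟨-, -, h1, h2⟩ := mem_augs.1 hp
  obtain ⟨i, hi, hl⟩ := mem_HH.1 h1
  obtain ⟨j, hj, hl'⟩ := mem_HH.1 h2
  rw [vs, List.length_append, halves_length hl, halves_length hl']
  omega

theorem va_sq (m : ℕ) : (m + 1) ^ 2 ≤ 4 * 2 ^ m := by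
  induction m with
  | zero => norm_num
  | succ m ih =>
    rcases Nat.lt_or_ge m 2 with h | h
    · interval_cases m <;> norm_num
    · have h1 : (m + 1 + 1) ^ 2 ≤ 2 * (m + 1) ^ 2 := by nlinarith
      rw [pow_succ 2 m]
      omega

theorem va_arith (m : ℕ) :
    (4 * m + 2) * (6 * (m + 2) ^ 2 * ((m + 1) * 4 ^ m)) ≤ 3 * 2 ^ KD m := by
  have h1 := va_sq m
  have h2 : (2 : ℕ) ^ KD m = 1024 * (4 ^ m * 4 ^ m) := by
    unfold KD
    rw [pow_add, show 4 * m = 2 * m + 2 * m by ring, pow_add, pow_mul]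
    norm_num
    ring
  have h3 : (m + 1) ^ 4 ≤ 16 * 4 ^ m := by
    calc (m + 1) ^ 4 = (m + 1) ^ 2 * (m + 1) ^ 2 := by ring
      _ ≤ (4 * 2 ^ m) * (4 * 2 ^ m) := Nat.mul_le_mul h1 h1
      _ = 16 * 4 ^ m := by
          have h5 : (4 : ℕ) ^ m = 2 ^ m * 2 ^ m := by
            rw [← mul_pow, show (2 : ℕ) * 2 = 4 from rfl]
          rw [h5]; ring
  rw [h2]
  have h4 : (m + 2) ^ 2 ≤ 4 * (m + 1) ^ 2 := by
    calc (m + 2) ^ 2 ≤ (2 * (m + 1)) ^ 2 := Nat.pow_le_pow_left (by omega) 2
      _ = 4 * (m + 1) ^ 2 := by ring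
  calc (4 * m + 2) * (6 * (m + 2) ^ 2 * ((m + 1) * 4 ^ m))
      ≤ (4 * (m + 1)) * (6 * (4 * (m + 1) ^ 2) * ((m + 1) * 4 ^ m)) :=
        Nat.mul_le_mul (by omega) (Nat.mul_le_mul_right _ (Nat.mul_le_mul_left _ h4))
    _ = 96 * 4 ^ m * (m + 1) ^ 4 := by ring
    _ ≤ 96 * 4 ^ m * (16 * 4 ^ m) := Nat.mul_le_mul_left _ h3
    _ ≤ 3 * (1024 * (4 ^ m * 4 ^ m)) := by
        have : 0 < 4 ^ m * 4 ^ m := by positivity
        nlinarith

theorem va_step (hc : Cubic G) (hM : IsMat G M) (m k : ℕ) :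
    ∑ v, (ld G M m (WW G M m (KD m) k) v) ^ 2 ≤
      3 * 2 ^ KD m * ∑ p ∈ augs G M m, WW G M m (KD m) k p := by
  set K := KD m with hK
  induction k with
  | zero =>
    rw [sum_ld_sq_eq, mul_sum]
    refine sum_le_sum fun p hp => ?_
    have h0 : ∀ p : PT V, WW G M m K 0 p = 1 := fun _ => by simp [WW]
    rw [h0, one_mul, mul_one]
    have h1 : ∀ v, ld G M m (WW G M m K 0) v ≤ 6 * (m + 2) ^ 2 * ((m + 1) * 4 ^ m) := by
      intro v
      unfold ld
      rw [sum_congr rfl fun p _ => h0 p, sum_const, smul_eq_mul, mul_one]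
      exact va_card hc hM m v
    calc pld G M m (WW G M m K 0) p
        ≤ ∑ v ∈ (vs p).toFinset, 6 * (m + 2) ^ 2 * ((m + 1) * 4 ^ m) :=
          sum_le_sum fun v _ => h1 v
      _ = (vs p).toFinset.card * (6 * (m + 2) ^ 2 * ((m + 1) * 4 ^ m)) := by
          rw [sum_const, smul_eq_mul]
      _ ≤ (4 * m + 2) * (6 * (m + 2) ^ 2 * ((m + 1) * 4 ^ m)) :=
          Nat.mul_le_mul_right _ ((List.toFinset_card_le _).trans (va_len hp))
      _ ≤ 3 * 2 ^ K := va_arith m
  | succ k ih =>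
    set W := WW G M m K k with hW
    set D : PT V → ℕ := fun p => if pld G M m W p < 2 ^ K then W p else 0 with hD
    have h1 : WW G M m K (k + 1) = fun p => W p + D p := by
      funext p
      exact va_WW_succ m K k p
    have hDW : ∀ p, D p ≤ W p := by
      intro p
      simp only [hD]
      split_ifs
      · exact le_rfl
      · exact Nat.zero_le _
    rw [h1]
    simp only [va_ld_add]
    have h2 : ∀ v, (ld G M m W v + ld G M m D v) ^ 2 ≤
        (ld G M m W v) ^ 2 + 3 * (ld G M m W v * ld G M m D v) := by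
      intro v
      have h3 := va_ld_mono (G := G) (M := M) m hDW v
      nlinarith
    have h4 : ∑ v, ld G M m W v * ld G M m D v ≤ 2 ^ K * ∑ p ∈ augs G M m, D p := by
      rw [va_pair, mul_sum]
      refine sum_le_sum fun p _ => ?_
      simp only [hD]
      split_ifs with h
      · rw [mul_comm]
        exact Nat.mul_le_mul_right _ h.le
      · simp
    calc ∑ v, (ld G M m W v + ld G M m D v) ^ 2
        ≤ ∑ v, ((ld G M m W v) ^ 2 + 3 * (ld G M m W v * ld G M m D v)) :=
          sum_le_sum fun v _ => h2 v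
      _ = ∑ v, (ld G M m W v) ^ 2 + 3 * ∑ v, ld G M m W v * ld G M m D v := by
          rw [sum_add_distrib, mul_sum]
      _ ≤ 3 * 2 ^ K * ∑ p ∈ augs G M m, W p + 3 * (2 ^ K * ∑ p ∈ augs G M m, D p) :=
          Nat.add_le_add ih (Nat.mul_le_mul_left _ h4)
      _ = 3 * 2 ^ K * ∑ p ∈ augs G M m, (W p + D p) := by
          rw [sum_add_distrib]; ring

/-- The sum of the squares of the loads is at most three times the total weight. -/
theorem sum_ld_sq (hc : Cubic G) (hM : IsMat G M) (m : ℕ) :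
    ∑ v, (ld G M m (WF G M m) v) ^ 2 ≤ 3 * 2 ^ KD m * ∑ p ∈ augs G M m, WF G M m p :=
  va_step hc hM m (KD m)

end NM71
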