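import Pool.Agent.NM71.Defs

set_option autoImplicit false

/-! V2 HAND C: the energy argument, deterministic part. -/

namespace NM71

open Finset Classical NM70

variable {V : Type*} [Fintype V] {G M : SimpleGraph V}

theorem c1_mem_liv {z : V → ℝ} {i : ℕ} {x : V} {q : List V} :
    q ∈ liv G M z i x ↔ q ∈ halves G M i x ∧ cc z q < 1 / 2 := by
  unfold liv
  rw [mem_filter]

omit [Fintype V] in
theorem c1_cc_cons (z : V → ℝ) (x : V) (q : List V) : cc z (x :: q) = z x + cc z q := by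
  unfold cc
  rw [List.map_cons, List.sum_cons]

theorem kf_nonneg (z : V → ℝ) (i : ℕ) (x : V) : 0 ≤ kf G M z i x := by
  unfold kf
  positivity

theorem gz_nonneg (z : V → ℝ) (m : ℕ) (x : V) : 0 ≤ gz G M z m x := by
  unfold gz
  refine sum_nonneg fun i _ => ?_
  have := kf_nonneg (G := G) (M := M) z i x
  positivity

/-- If `gz` does not vanish, there is a living half path. -/
theorem c1_exists_liv {z : V → ℝ} {m : ℕ} {x : V} (h : gz G M z m x ≠ 0) :
    ∃ i ≤ m, ∃ q, q ∈ liv G M z i x := by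
  unfold gz at h
  obtain ⟨i, hi, hne⟩ := exists_ne_zero_of_sum_ne_zero h
  rw [mem_range, Nat.lt_succ_iff] at hi
  refine ⟨i, hi, ?_⟩
  by_contra hno
  push Not at hno
  apply hne
  have h0 : liv G M z i x = ∅ := eq_empty_of_forall_notMem hno
  unfold kf
  rw [h0]
  simp

/-- The support of `gz` is independent if all augmenting paths are blocked. -/
theorem gz_indep (hc : Cubic G) (hM : IsMat G M) (m : ℕ) (z : V → ℝ) (hz : ∀ v, 0 ≤ z v)
    (hb : ∀ p ∈ augs G M m, 1 ≤ cc z p.2.1 + cc z p.2.2) {x y : V} (h : G.Adj x y) :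
    gz G M z m x * gz G M z m y = 0 := by
  by_contra hne
  obtain ⟨hx, hy⟩ := mul_ne_zero_iff.1 hne
  obtain ⟨i, hi, q, hq⟩ := c1_exists_liv hx
  obtain ⟨j, hj, q', hq'⟩ := c1_exists_liv hy
  obtain ⟨hq1, hq2⟩ := c1_mem_liv.1 hq
  obtain ⟨hq1', hq2'⟩ := c1_mem_liv.1 hq'
  by_cases hxy : M.Adj x y
  · cases i with
    | zero => exact (mem_halves_zero.1 hq1).1 y hxy
    | succ i =>
      obtain ⟨y', z', l, h1, h2, h3, h4, rfl⟩ := mem_halves_succ.1 hq1
      have hyy : y' = y := hM.uniq x y' y h1 hxy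
      subst hyy
      have hnz : ¬ M.Adj z' y' := fun h5 => h3 (hM.uniq y' z' x h5.symm h1.symm)
      have hmem : ((z', y'), (l, q')) ∈ augs G M m := by
        rw [mem_augs]
        exact ⟨h2.symm, hnz, mem_HH.2 ⟨i, by omega, h4⟩, mem_HH.2 ⟨j, hj, hq1'⟩⟩
      have h6 := hb _ hmem
      rw [c1_cc_cons, c1_cc_cons] at hq2
      have h7 := hz x
      have h8 := hz y'
      dsimp only at h6
      linarith
  · have hmem : ((x, y), (q, q')) ∈ augs G M m := by
      rw [mem_augs]
      exact ⟨h, hxy, mem_HH.2 ⟨i, hi, hq1⟩, mem_HH.2 ⟨j, hj, hq1'⟩⟩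
    have h6 := hb _ hmem
    dsimp only at h6
    linarith

/-- The number of living half paths of the next level, for a matched vertex. -/
theorem c1_card_liv_succ (hM : IsMat G M) {z : V → ℝ} {x y : V} (hxy : M.Adj x y) (i : ℕ) :
    (liv G M z (i + 1) x).card = ∑ w : V, if G.Adj y w ∧ w ≠ x then
      ((halves G M i w).filter fun l => cc z (x :: y :: l) < 1 / 2).card else 0 := by
  unfold liv
  rw [h4_card_filter_succ, Fintype.sum_prod_type, sum_eq_single y]
  · refine sum_congr rfl fun w _ => ?_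
    by_cases h : G.Adj y w ∧ w ≠ x
    · rw [if_pos h, if_pos ⟨hxy, h.1, h.2⟩]
    · rw [if_neg h, if_neg fun h' => h ⟨h'.2.1, h'.2.2⟩]
  · intro y' _ hne
    refine sum_eq_zero fun w _ => ?_
    rw [if_neg]
    exact fun h' => hne (hM.uniq x y' y h'.1 hxy)
  · intro h
    exact absurd (mem_univ _) h

theorem c1_card_liv_succ_unm {z : V → ℝ} {x : V} (hx : Unm M x) (i : ℕ) :
    liv G M z (i + 1) x = ∅ := by
  refine eq_empty_of_forall_notMem fun q hq => ?_
  obtain ⟨y, -, -, h1, -⟩ := mem_halves_succ.1 (c1_mem_liv.1 hq).1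
  exact hx y h1

theorem c1_kf_succ_le (hM : IsMat G M) {z : V → ℝ} (hz : ∀ v, 0 ≤ z v) {x y : V}
    (hxy : M.Adj x y) (i : ℕ) :
    2 * kf G M z (i + 1) x ≤ ∑ w : V, if G.Adj y w ∧ w ≠ x then kf G M z i w else 0 := by
  have h1 : (liv G M z (i + 1) x).card ≤ ∑ w : V, if G.Adj y w ∧ w ≠ x then
      (liv G M z i w).card else 0 := by
    rw [c1_card_liv_succ hM hxy]
    refine sum_le_sum fun w _ => ?_
    split_ifs with h
    · refine card_le_card fun l hl => ?_
      rw [mem_filter] at hl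
      rw [c1_mem_liv]
      refine ⟨hl.1, ?_⟩
      have h2 := hl.2
      rw [c1_cc_cons, c1_cc_cons] at h2
      have h7 := hz x
      have h8 := hz y
      linarith
    · exact le_rfl
  have h2 : ((liv G M z (i + 1) x).card : ℝ) ≤ ∑ w : V, if G.Adj y w ∧ w ≠ x then
      ((liv G M z i w).card : ℝ) else 0 := by
    have h3 : ((liv G M z (i + 1) x).card : ℝ) ≤ ((∑ w : V, if G.Adj y w ∧ w ≠ x then
      (liv G M z i w).card else 0 : ℕ) : ℝ) := by exact_mod_cast h1
    refine h3.trans (le_of_eq ?_)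
    push_cast
    rfl
  have h4 : (∑ w : V, if G.Adj y w ∧ w ≠ x then kf G M z i w else 0) =
      (∑ w : V, if G.Adj y w ∧ w ≠ x then ((liv G M z i w).card : ℝ) else 0) / 2 ^ i := by
    rw [sum_div]
    refine sum_congr rfl fun w _ => ?_
    split_ifs with h
    · rfl
    · simp
  rw [h4]
  have h5 : 2 * kf G M z (i + 1) x = ((liv G M z (i + 1) x).card : ℝ) / 2 ^ i := by
    unfold kf
    rw [pow_succ]
    field_simp
  rw [h5]
  exact div_le_div_of_nonneg_right h2 (by positivity)

theorem c1_kf_zero_matched {z : V → ℝ} {x y : V} (hxy : M.Adj x y) : kf G M z 0 x = 0 := by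
  have h : liv G M z 0 x = ∅ := by
    refine eq_empty_of_forall_notMem fun q hq => ?_
    exact (mem_halves_zero.1 (c1_mem_liv.1 hq).1).1 y hxy
  unfold kf
  rw [h]
  simp

theorem c1_kf_zero_le {z : V → ℝ} (x : V) : kf G M z 0 x ≤ 1 := by
  unfold kf
  have h : (liv G M z 0 x).card ≤ 1 := by
    have : liv G M z 0 x ⊆ {[x]} := by
      intro q hq
      rw [mem_singleton]
      exact (mem_halves_zero.1 (c1_mem_liv.1 hq).1).2
    exact (card_le_card this).trans (card_singleton _).le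
  rw [pow_zero, div_one]
  exact_mod_cast h

theorem c1_gz_unm {z : V → ℝ} {x : V} (hx : Unm M x) (m : ℕ) :
    gz G M z m x = kf G M z 0 x := by
  unfold gz
  rw [sum_range_succ']
  rw [sum_eq_zero, zero_add, pow_zero, one_mul]
  intro i _
  unfold kf
  rw [c1_card_liv_succ_unm hx]
  simp

theorem c1_gz_matched {z : V → ℝ} {x y : V} (hxy : M.Adj x y) (m : ℕ) :
    gz G M z m x = ∑ i ∈ range m, (51 / 50 : ℝ) ^ (i + 1) * kf G M z (i + 1) x := by
  unfold gz
  rw [sum_range_succ', c1_kf_zero_matched hxy, mul_zero, add_zero]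

/-- The key inequality: the neighbour sum at the partner. -/
theorem c1_nsum_partner (hM : IsMat G M) (m : ℕ) {z : V → ℝ} (hz : ∀ v, 0 ≤ z v) {x y : V}
    (hxy : M.Adj x y) :
    (151 / 51 : ℝ) * gz G M z m x ≤ nsum G (gz G M z m) y := by
  have hG : G.Adj x y := hM.le x y hxy
  have h1 : nsum G (gz G M z m) y = gz G M z m x +
      ∑ w : V, if G.Adj y w ∧ w ≠ x then gz G M z m w else 0 := by
    unfold nsum
    rw [← add_sum_erase univ _ (mem_univ x), if_pos hG.symm]
    congr 1
    rw [← add_sum_erase univ (fun w => if G.Adj y w ∧ w ≠ x then gz G M z m w else 0)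
      (mem_univ x)]
    rw [if_neg (fun h => h.2 rfl), zero_add]
    refine sum_congr rfl fun w hw => ?_
    rw [mem_erase] at hw
    by_cases h : G.Adj y w
    · rw [if_pos h, if_pos ⟨h, hw.1⟩]
    · rw [if_neg h, if_neg fun h' => h h'.1]
  have h2 : ∀ w, (∑ i ∈ range m, (51 / 50 : ℝ) ^ i * kf G M z i w) ≤ gz G M z m w := by
    intro w
    unfold gz
    rw [sum_range_succ]
    have h3 := kf_nonneg (G := G) (M := M) z m w
    have h4 : 0 ≤ (51 / 50 : ℝ) ^ m * kf G M z m w := by positivity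
    linarith
  have h3 : (∑ w : V, if G.Adj y w ∧ w ≠ x then
      (∑ i ∈ range m, (51 / 50 : ℝ) ^ i * kf G M z i w) else 0) ≤
      ∑ w : V, if G.Adj y w ∧ w ≠ x then gz G M z m w else 0 := by
    refine sum_le_sum fun w _ => ?_
    split_ifs with h
    · exact h2 w
    · exact le_rfl
  have h4 : (∑ w : V, if G.Adj y w ∧ w ≠ x then
      (∑ i ∈ range m, (51 / 50 : ℝ) ^ i * kf G M z i w) else 0) =
      ∑ i ∈ range m, (51 / 50 : ℝ) ^ i *
        ∑ w : V, if G.Adj y w ∧ w ≠ x then kf G M z i w else 0 := by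
    have h5 : ∀ w : V, (if G.Adj y w ∧ w ≠ x then
        (∑ i ∈ range m, (51 / 50 : ℝ) ^ i * kf G M z i w) else 0) =
        ∑ i ∈ range m, (51 / 50 : ℝ) ^ i * (if G.Adj y w ∧ w ≠ x then kf G M z i w else 0) := by
      intro w
      split_ifs with h
      · rfl
      · simp
    rw [sum_congr rfl fun w _ => h5 w, sum_comm]
    refine sum_congr rfl fun i _ => ?_
    rw [mul_sum]
  have h6 : (100 / 51 : ℝ) * gz G M z m x ≤ ∑ i ∈ range m, (51 / 50 : ℝ) ^ i *
        ∑ w : V, if G.Adj y w ∧ w ≠ x then kf G M z i w else 0 := by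
    rw [c1_gz_matched hxy, mul_sum]
    refine sum_le_sum fun i _ => ?_
    have h7 := c1_kf_succ_le hM hz hxy i
    have h8 : (0 : ℝ) ≤ (51 / 50 : ℝ) ^ i := by positivity
    calc (100 / 51 : ℝ) * ((51 / 50 : ℝ) ^ (i + 1) * kf G M z (i + 1) x)
        = (51 / 50 : ℝ) ^ i * (2 * kf G M z (i + 1) x) := by rw [pow_succ]; ring
      _ ≤ _ := mul_le_mul_of_nonneg_left h7 h8
  rw [h1]
  have h9 : (151 / 51 : ℝ) * gz G M z m x = gz G M z m x + 100 / 51 * gz G M z m x := by ring
  rw [h9]
  have := h4 ▸ h3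
  linarith

theorem gz_energy (hc : Cubic G) (hM : IsMat G M) (m : ℕ) (z : V → ℝ) (hz : ∀ v, 0 ≤ z v) :
    (151 / 51 : ℝ) ^ 2 * ((∑ x, (gz G M z m x) ^ 2) - ((unm M).card : ℝ)) ≤
      ∑ y, (nsum G (gz G M z m) y) ^ 2 := by
  set U := unm M with hU
  set R := (univ : Finset V).filter fun x => ¬ Unm M x with hR
  have hsplit : ∑ x, (gz G M z m x) ^ 2 = (∑ x ∈ U, (gz G M z m x) ^ 2) +
      ∑ x ∈ R, (gz G M z m x) ^ 2 := by
    rw [hU, hR, unm, sum_filter_add_sum_filter_not]
  have hUle : ∑ x ∈ U, (gz G M z m x) ^ 2 ≤ (U.card : ℝ) := by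
    rw [← nsmul_one, ← sum_const]
    refine sum_le_sum fun x hx => ?_
    rw [hU, unm, mem_filter] at hx
    rw [c1_gz_unm hx.2]
    have h1 := c1_kf_zero_le (G := G) (M := M) (z := z) x
    have h0 := kf_nonneg (G := G) (M := M) z 0 x
    nlinarith
  have hex : ∀ x ∈ R, ∃ y, M.Adj x y := by
    intro x hx
    rw [hR, mem_filter] at hx
    have h2 := hx.2
    unfold Unm at h2
    push Not at h2
    exact h2
  have hR' : (151 / 51 : ℝ) ^ 2 * ∑ x ∈ R, (gz G M z m x) ^ 2 ≤
      ∑ y, (nsum G (gz G M z m) y) ^ 2 := by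
    obtain ⟨π, hπ⟩ : ∃ π : V → V, ∀ x ∈ R, M.Adj x (π x) := by
      refine ⟨fun x => if h : ∃ y, M.Adj x y then h.choose else x, fun x hx => ?_⟩
      have h := hex x hx
      dsimp only
      rw [dif_pos h]
      exact h.choose_spec
    have hinj : Set.InjOn π R := by
      intro a ha b hb hab
      have h1 := hπ a ha
      have h2 := hπ b hb
      rw [hab] at h1
      exact hM.uniq (π b) a b h1.symm h2.symm
    calc (151 / 51 : ℝ) ^ 2 * ∑ x ∈ R, (gz G M z m x) ^ 2
        = ∑ x ∈ R, ((151 / 51 : ℝ) * gz G M z m x) ^ 2 := by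
          rw [mul_sum]
          refine sum_congr rfl fun x _ => ?_
          ring
      _ ≤ ∑ x ∈ R, (nsum G (gz G M z m) (π x)) ^ 2 := by
          refine sum_le_sum fun x hx => ?_
          have h1 := c1_nsum_partner hM m hz (hπ x hx)
          have h0 := gz_nonneg (G := G) (M := M) z m x
          have h2 : 0 ≤ (151 / 51 : ℝ) * gz G M z m x := by positivity
          exact pow_le_pow_left₀ h2 h1 2
      _ = ∑ y ∈ R.image π, (nsum G (gz G M z m) y) ^ 2 := by
          rw [sum_image hinj]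
      _ ≤ ∑ y, (nsum G (gz G M z m) y) ^ 2 := by
          exact sum_le_sum_of_subset_of_nonneg (subset_univ _) fun y _ _ => sq_nonneg _
  have h3 : (151 / 51 : ℝ) ^ 2 * ((∑ x, (gz G M z m x) ^ 2) - (U.card : ℝ)) ≤
      (151 / 51 : ℝ) ^ 2 * ∑ x ∈ R, (gz G M z m x) ^ 2 := by
    refine mul_le_mul_of_nonneg_left ?_ (by positivity)
    rw [hsplit]
    linarith
  exact h3.trans hR'

/-- Sums over the half paths of the next level. -/
theorem c2_sum_halves_succ (i : ℕ) (x : V) (Φ : List V → ℝ) :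
    ∑ l ∈ halves G M (i + 1) x, Φ l = ∑ e : V × V,
      if M.Adj x e.1 ∧ G.Adj e.1 e.2 ∧ e.2 ≠ x then
        ∑ l ∈ halves G M i e.2, Φ (x :: e.1 :: l) else 0 := by
  have h1 : halves G M (i + 1) x = (univ : Finset (V × V)).biUnion fun e =>
      if M.Adj x e.1 ∧ G.Adj e.1 e.2 ∧ e.2 ≠ x then
        (halves G M i e.2).image (fun l => x :: e.1 :: l) else ∅ := by
    rw [halves]
  rw [h1, sum_biUnion]
  · refine sum_congr rfl fun e _ => ?_
    split_ifs with h
    · rw [sum_image]
      intro a _ b _ hab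
      simpa using hab
    · simp
  · intro e _ e' _ hne
    rw [Function.onFun, disjoint_left]
    intro l hl hl'
    split_ifs at hl with h
    · split_ifs at hl' with h'
      · obtain ⟨a, ha, rfl⟩ := mem_image.1 hl
        obtain ⟨b, hb, hb'⟩ := mem_image.1 hl'
        have ha' := halves_head ha
        have hb'' := halves_head hb
        simp only [List.cons.injEq, true_and] at hb'
        obtain ⟨h5, h6⟩ := hb'
        subst h6
        rw [ha'] at hb''
        exact hne (Prod.ext h5.symm (Option.some.inj hb''))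
      · simp at hl'
    · simp at hl

/-- The sum over all one-step extensions of the living half paths of level `i`. -/
noncomputable def c2E (G M : SimpleGraph V) (z : V → ℝ) (i : ℕ) (ψ : V → V → List V → ℝ) : ℝ :=
  ∑ w : V, ∑ q ∈ liv G M z i w, ∑ y : V, ∑ x : V,
    if M.Adj x y ∧ G.Adj y w ∧ w ≠ x then ψ x y q else 0

theorem c2E_le {z : V → ℝ} {i : ℕ} {ψ ψ' : V → V → List V → ℝ}
    (h : ∀ x y q, ψ x y q ≤ ψ' x y q) : c2E G M z i ψ ≤ c2E G M z i ψ' := by
  unfold c2E
  refine sum_le_sum fun w _ => sum_le_sum fun q _ => sum_le_sum fun y _ => sum_le_sum fun x _ => ?_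
  split_ifs
  · exact h x y q
  · exact le_rfl

theorem c2E_add {z : V → ℝ} {i : ℕ} {ψ ψ' : V → V → List V → ℝ} :
    c2E G M z i (fun x y q => ψ x y q + ψ' x y q) = c2E G M z i ψ + c2E G M z i ψ' := by
  unfold c2E
  rw [← sum_add_distrib]
  refine sum_congr rfl fun w _ => ?_
  rw [← sum_add_distrib]
  refine sum_congr rfl fun q _ => ?_
  rw [← sum_add_distrib]
  refine sum_congr rfl fun y _ => ?_
  rw [← sum_add_distrib]
  refine sum_congr rfl fun x _ => ?_
  split_ifs
  · rfl
  · simp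

theorem c2E_smul {z : V → ℝ} {i : ℕ} {ψ : V → V → List V → ℝ} (c : ℝ) :
    c2E G M z i (fun x y q => c * ψ x y q) = c * c2E G M z i ψ := by
  unfold c2E
  rw [mul_sum]
  refine sum_congr rfl fun w _ => ?_
  rw [mul_sum]
  refine sum_congr rfl fun q _ => ?_
  rw [mul_sum]
  refine sum_congr rfl fun y _ => ?_
  rw [mul_sum]
  refine sum_congr rfl fun x _ => ?_
  split_ifs
  · rfl
  · simp

/-- The living half paths of the next level are the living extensions. -/
theorem c2_exch {z : V → ℝ} (hz : ∀ v, 0 ≤ z v) (i : ℕ) (Ψ : List V → ℝ) :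
    ∑ x : V, ∑ q ∈ liv G M z (i + 1) x, Ψ q =
      c2E G M z i (fun x y q => if cc z (x :: y :: q) < 1 / 2 then Ψ (x :: y :: q) else 0) := by
  have h1 : ∀ x : V, ∑ q ∈ liv G M z (i + 1) x, Ψ q = ∑ y : V, ∑ w : V,
      ∑ q ∈ liv G M z i w, if M.Adj x y ∧ G.Adj y w ∧ w ≠ x then
        (if cc z (x :: y :: q) < 1 / 2 then Ψ (x :: y :: q) else 0) else 0 := by
    intro x
    unfold liv
    rw [sum_filter, c2_sum_halves_succ, Fintype.sum_prod_type]
    refine sum_congr rfl fun y _ => sum_congr rfl fun w _ => ?_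
    dsimp only
    split_ifs with h
    · rw [sum_filter]
      refine sum_congr rfl fun q _ => ?_
      by_cases h2 : cc z q < 1 / 2
      · rw [if_pos h2]
      · rw [if_neg h2, if_neg]
        rw [c1_cc_cons, c1_cc_cons]
        have h7 := hz x
        have h8 := hz y
        push Not at h2 ⊢
        linarith
    · simp
  rw [sum_congr rfl fun x _ => h1 x]
  unfold c2E
  rw [sum_comm]
  have h2 : ∀ y : V, (∑ x : V, ∑ w : V,
      ∑ q ∈ liv G M z i w, if M.Adj x y ∧ G.Adj y w ∧ w ≠ x then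
        (if cc z (x :: y :: q) < 1 / 2 then Ψ (x :: y :: q) else 0) else 0) =
      ∑ w : V, ∑ x : V, ∑ q ∈ liv G M z i w, if M.Adj x y ∧ G.Adj y w ∧ w ≠ x then
        (if cc z (x :: y :: q) < 1 / 2 then Ψ (x :: y :: q) else 0) else 0 :=
    fun y => sum_comm
  rw [sum_congr rfl fun y _ => h2 y, sum_comm]
  refine sum_congr rfl fun w _ => ?_
  have h3 : ∀ y : V, (∑ x : V, ∑ q ∈ liv G M z i w, if M.Adj x y ∧ G.Adj y w ∧ w ≠ x then
        (if cc z (x :: y :: q) < 1 / 2 then Ψ (x :: y :: q) else 0) else 0) =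
      ∑ q ∈ liv G M z i w, ∑ x : V, if M.Adj x y ∧ G.Adj y w ∧ w ≠ x then
        (if cc z (x :: y :: q) < 1 / 2 then Ψ (x :: y :: q) else 0) else 0 :=
    fun y => sum_comm
  rw [sum_congr rfl fun y _ => h3 y, sum_comm]

/-- The number of one-step extensions at `w`. -/
noncomputable def c2d (G M : SimpleGraph V) (w : V) : ℝ :=
  ∑ y : V, ∑ x : V, if M.Adj x y ∧ G.Adj y w ∧ w ≠ x then (1 : ℝ) else 0

theorem c2d_eq (hM : IsMat G M) (w : V) :
    c2d G M w = ∑ y : V, if G.Adj w y then (if ¬ M.Adj w y ∧ ¬ Unm M y then (1 : ℝ) else 0)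
      else 0 := by
  unfold c2d
  refine sum_congr rfl fun y _ => ?_
  by_cases h1 : G.Adj w y
  · rw [if_pos h1]
    by_cases h2 : Unm M y
    · rw [if_neg fun h => h.2 h2]
      refine sum_eq_zero fun x _ => ?_
      rw [if_neg fun h => h2 x h.1.symm]
    · have h2' := h2
      unfold Unm at h2'
      push Not at h2'
      obtain ⟨p, hp⟩ := h2'
      rw [sum_eq_single p]
      · by_cases h3 : M.Adj w y
        · have : p = w := hM.uniq y p w hp h3.symm
          subst this
          rw [if_neg fun h => h.2.2 rfl, if_neg fun h => h.1 h3]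
        · have h4 : w ≠ p := by
            rintro rfl
            exact h3 hp.symm
          rw [if_pos ⟨hp.symm, h1.symm, h4⟩, if_pos ⟨h3, h2⟩]
      · intro x _ hne
        rw [if_neg fun h => hne (hM.uniq y x p h.1.symm hp)]
      · intro h
        exact absurd (mem_univ _) h
  · rw [if_neg h1]
    refine sum_eq_zero fun x _ => ?_
    rw [if_neg fun h => h1 h.2.1.symm]

theorem c2_sum_nbr (hc : Cubic G) (w : V) : ∃ a b c : V, a ≠ b ∧ a ≠ c ∧ b ≠ c ∧
    G.Adj w a ∧ G.Adj w b ∧ G.Adj w c ∧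
    ∀ F : V → ℝ, (∑ y : V, if G.Adj w y then F y else 0) = F a + F b + F c := by
  obtain ⟨a, b, c, hab, hac, hbc, h⟩ := hc w
  refine ⟨a, b, c, hab, hac, hbc, (h a).2 (Or.inl rfl), (h b).2 (Or.inr (Or.inl rfl)),
    (h c).2 (Or.inr (Or.inr rfl)), fun F => ?_⟩
  rw [← sum_filter]
  have h1 : (univ.filter fun y => G.Adj w y) = {a, b, c} := by
    ext y
    rw [mem_filter, h y]
    simp
  rw [h1, sum_insert, sum_insert, sum_singleton]
  · ring
  · rw [mem_singleton]
    exact hbc
  · rw [mem_insert, mem_singleton, not_or]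
    exact ⟨hab, hac⟩

theorem c2d_le_three (hc : Cubic G) (hM : IsMat G M) (w : V) : c2d G M w ≤ 3 := by
  obtain ⟨a, b, c, -, -, -, -, -, -, h⟩ := c2_sum_nbr hc w
  rw [c2d_eq hM, h]
  have key : ∀ y : V, (if ¬ M.Adj w y ∧ ¬ Unm M y then (1 : ℝ) else 0) ≤ 1 := by
    intro y
    split_ifs <;> norm_num
  linarith [key a, key b, key c]

theorem c2d_nonneg (w : V) : 0 ≤ c2d G M w := by
  unfold c2d
  refine sum_nonneg fun y _ => sum_nonneg fun x _ => ?_
  split_ifs <;> norm_num

theorem c2d_le_two (hc : Cubic G) (hM : IsMat G M) {w p : V} (hp : M.Adj w p) :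
    c2d G M w ≤ 2 := by
  obtain ⟨a, b, c, hab, hac, hbc, -, -, -, h⟩ := c2_sum_nbr hc w
  have hmem : p = a ∨ p = b ∨ p = c := by
    by_contra hno
    push Not at hno
    have h1 := h (fun y => if y = p then 1 else 0)
    rw [if_neg hno.1.symm, if_neg hno.2.1.symm, if_neg hno.2.2.symm] at h1
    rw [sum_eq_single p] at h1
    · rw [if_pos (hM.le w p hp), if_pos rfl] at h1
      norm_num at h1
    · intro y _ hne
      rw [if_neg hne]
      simp
    · intro h2
      exact absurd (mem_univ _) h2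
  rw [c2d_eq hM, h]
  have key : ∀ y : V, (if ¬ M.Adj w y ∧ ¬ Unm M y then (1 : ℝ) else 0) ≤ 1 := by
    intro y
    split_ifs <;> norm_num
  have key0 : (if ¬ M.Adj w p ∧ ¬ Unm M p then (1 : ℝ) else 0) = 0 := by
    rw [if_neg fun h => h.1 hp]
  rcases hmem with rfl | rfl | rfl
  · linarith [key b, key c]
  · linarith [key a, key c]
  · linarith [key a, key b]

/-- Lower bound for the number of extensions of a living half path. -/
theorem c2d_ge (hc : Cubic G) (hM : IsMat G M) {m : ℕ} {z : V → ℝ} (hz : ∀ v, 0 ≤ z v)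
    (hb : ∀ p ∈ augs G M m, 1 ≤ cc z p.2.1 + cc z p.2.2) {i : ℕ} (hi : i ≤ m) {w : V}
    {q : List V} (hq : q ∈ liv G M z i w) :
    2 - 2 * nsum G z w ≤ c2d G M w := by
  obtain ⟨a, b, c, hab, hac, hbc, ha, hb', hc', h⟩ := c2_sum_nbr hc w
  rw [c2d_eq hM, h]
  unfold nsum
  rw [h]
  have hq' := c1_mem_liv.1 hq
  have key : ∀ y : V, G.Adj w y → (if ¬ M.Adj w y then (1 : ℝ) else 0) - 2 * z y ≤
      (if ¬ M.Adj w y ∧ ¬ Unm M y then (1 : ℝ) else 0) := by
    intro y hy
    have hzy := hz y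
    by_cases h1 : M.Adj w y
    · rw [if_neg (not_not.2 h1), if_neg fun h => h.1 h1]
      linarith
    · rw [if_pos h1]
      by_cases h2 : Unm M y
      · rw [if_neg fun h => h.2 h2]
        have hmem : ((w, y), (q, [y])) ∈ augs G M m := by
          rw [mem_augs]
          exact ⟨hy, h1, mem_HH.2 ⟨i, hi, hq'.1⟩, mem_HH.2 ⟨0, Nat.zero_le _,
            mem_halves_zero.2 ⟨h2, rfl⟩⟩⟩
        have h3 := hb _ hmem
        dsimp only at h3
        have h4 : cc z [y] = z y := by
          unfold cc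
          simp
        rw [h4] at h3
        linarith [hq'.2]
      · rw [if_pos ⟨h1, h2⟩]
        linarith
  have hone : (2 : ℝ) ≤ (if ¬ M.Adj w a then (1 : ℝ) else 0) + (if ¬ M.Adj w b then (1 : ℝ) else 0)
      + (if ¬ M.Adj w c then (1 : ℝ) else 0) := by
    by_cases h1 : M.Adj w a
    · have h2 : ¬ M.Adj w b := fun h3 => hab (hM.uniq w a b h1 h3)
      have h3 : ¬ M.Adj w c := fun h4 => hac (hM.uniq w a c h1 h4)
      rw [if_neg (not_not.2 h1), if_pos h2, if_pos h3]
      norm_num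
    · by_cases h2 : M.Adj w b
      · have h3 : ¬ M.Adj w c := fun h4 => hbc (hM.uniq w b c h2 h4)
        rw [if_pos h1, if_neg (not_not.2 h2), if_pos h3]
        norm_num
      · rw [if_pos h1, if_pos h2]
        have h4 : (0 : ℝ) ≤ (if ¬ M.Adj w c then (1 : ℝ) else 0) := by
          split_ifs <;> norm_num
        linarith
  linarith [key a ha, key b hb', key c hc']

/-- The mass at level `i`. -/
noncomputable def c2A (G M : SimpleGraph V) (z : V → ℝ) (i : ℕ) : ℝ := ∑ w : V, kf G M z i w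

/-- The accumulated load at level `i`. -/
noncomputable def c2B (G M : SimpleGraph V) (z : V → ℝ) (i : ℕ) : ℝ :=
  (∑ w : V, ∑ q ∈ liv G M z i w, cc z q) / 2 ^ i

/-- The mass killed at level `i + 1`. -/
noncomputable def c2K (G M : SimpleGraph V) (z : V → ℝ) (i : ℕ) : ℝ :=
  c2E G M z i (fun x y q => if cc z (x :: y :: q) < 1 / 2 then 0 else 1) / 2 ^ (i + 1)

/-- The new load at level `i + 1`. -/
noncomputable def c2Y (G M : SimpleGraph V) (z : V → ℝ) (i : ℕ) : ℝ :=
  c2E G M z i (fun x y _ => z x + z y) / 2 ^ (i + 1)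

omit [Fintype V] in
theorem c2_cc_nonneg {z : V → ℝ} (hz : ∀ v, 0 ≤ z v) (q : List V) : 0 ≤ cc z q := by
  induction q with
  | nil => simp [cc]
  | cons x q ih =>
    rw [c1_cc_cons]
    have := hz x
    linarith

theorem c2B_nonneg {z : V → ℝ} (hz : ∀ v, 0 ≤ z v) (i : ℕ) : 0 ≤ c2B G M z i := by
  unfold c2B
  refine div_nonneg ?_ (by positivity)
  exact sum_nonneg fun w _ => sum_nonneg fun q _ => c2_cc_nonneg hz q

theorem c2E_const (z : V → ℝ) (i : ℕ) (φ : List V → ℝ) :
    c2E G M z i (fun _ _ q => φ q) = ∑ w : V, ∑ q ∈ liv G M z i w, φ q * c2d G M w := by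
  unfold c2E c2d
  refine sum_congr rfl fun w _ => sum_congr rfl fun q _ => ?_
  rw [mul_sum]
  refine sum_congr rfl fun y _ => ?_
  rw [mul_sum]
  refine sum_congr rfl fun x _ => ?_
  split_ifs <;> simp

/-- The load inequality. -/
theorem c2_load {z : V → ℝ} (hz : ∀ v, 0 ≤ z v) (i : ℕ) :
    1 / 2 * c2K G M z i + c2B G M z (i + 1) ≤
      c2Y G M z i + c2E G M z i (fun _ _ q => cc z q) / 2 ^ (i + 1) := by
  unfold c2K c2B c2Y
  rw [c2_exch hz i (cc z), mul_div_assoc', ← add_div, ← add_div]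
  refine div_le_div_of_nonneg_right ?_ (by positivity)
  rw [← c2E_smul, ← c2E_add, ← c2E_add]
  refine c2E_le fun x y q => ?_
  have h1 : cc z (x :: y :: q) = z x + (z y + cc z q) := by rw [c1_cc_cons, c1_cc_cons]
  split_ifs with h
  · rw [h1]
    linarith
  · push Not at h
    rw [h1] at h
    linarith

theorem c2_load_zero (hc : Cubic G) (hM : IsMat G M) {z : V → ℝ} (hz : ∀ v, 0 ≤ z v) :
    1 / 2 * c2K G M z 0 + c2B G M z 1 ≤ c2Y G M z 0 + 3 / 2 * c2B G M z 0 := by
  refine (c2_load hz 0).trans ?_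
  have h1 : c2E G M z 0 (fun _ _ q => cc z q) ≤ 3 * ∑ w : V, ∑ q ∈ liv G M z 0 w, cc z q := by
    rw [c2E_const, mul_sum]
    refine sum_le_sum fun w _ => ?_
    rw [mul_sum]
    refine sum_le_sum fun q _ => ?_
    rw [mul_comm]
    exact mul_le_mul_of_nonneg_right (c2d_le_three hc hM w) (c2_cc_nonneg hz q)
  unfold c2B
  rw [zero_add, pow_zero, pow_one, div_one]
  linarith

theorem c2_load_succ (hc : Cubic G) (hM : IsMat G M) {z : V → ℝ} (hz : ∀ v, 0 ≤ z v) (i : ℕ) :
    1 / 2 * c2K G M z (i + 1) + c2B G M z (i + 2) ≤ c2Y G M z (i + 1) + c2B G M z (i + 1) := by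
  refine (c2_load hz (i + 1)).trans ?_
  have h1 : c2E G M z (i + 1) (fun _ _ q => cc z q) ≤
      2 * ∑ w : V, ∑ q ∈ liv G M z (i + 1) w, cc z q := by
    rw [c2E_const, mul_sum]
    refine sum_le_sum fun w _ => ?_
    rw [mul_sum]
    refine sum_le_sum fun q hq => ?_
    obtain ⟨p, -, -, hp, -⟩ := mem_halves_succ.1 (c1_mem_liv.1 hq).1
    rw [mul_comm]
    exact mul_le_mul_of_nonneg_right (c2d_le_two hc hM hp) (c2_cc_nonneg hz q)
  unfold c2B
  have h2 : c2E G M z (i + 1) (fun _ _ q => cc z q) / 2 ^ (i + 1 + 1) ≤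
      (2 * ∑ w : V, ∑ q ∈ liv G M z (i + 1) w, cc z q) / 2 ^ (i + 1 + 1) :=
    div_le_div_of_nonneg_right h1 (by positivity)
  have h3 : (2 * ∑ w : V, ∑ q ∈ liv G M z (i + 1) w, cc z q) / 2 ^ (i + 1 + 1) =
      (∑ w : V, ∑ q ∈ liv G M z (i + 1) w, cc z q) / (2 : ℝ) ^ (i + 1) := by
    rw [pow_succ (2 : ℝ) (i + 1)]
    field_simp
  rw [h3] at h2
  linarith

theorem c2_kill_sum (hc : Cubic G) (hM : IsMat G M) {z : V → ℝ} (hz : ∀ v, 0 ≤ z v) (k : ℕ) :
    1 / 2 * ∑ i ∈ range k, c2K G M z i + c2B G M z k ≤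
      3 / 2 * c2B G M z 0 + ∑ i ∈ range k, c2Y G M z i := by
  induction k with
  | zero =>
    rw [range_zero, sum_empty, sum_empty]
    have := c2B_nonneg (G := G) (M := M) hz 0
    linarith
  | succ k ih =>
    rw [sum_range_succ, sum_range_succ]
    cases k with
    | zero =>
      rw [range_zero, sum_empty, sum_empty]
      have := c2_load_zero hc hM hz
      linarith
    | succ k =>
      have := c2_load_succ hc hM hz k
      linarith

/-- The mass inequality. -/
theorem c2_mass_step (hc : Cubic G) (hM : IsMat G M) {m : ℕ} {z : V → ℝ} (hz : ∀ v, 0 ≤ z v)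
    (hb : ∀ p ∈ augs G M m, 1 ≤ cc z p.2.1 + cc z p.2.2) {i : ℕ} (hi : i ≤ m) :
    c2A G M z i - ∑ w : V, kf G M z i w * nsum G z w ≤ c2A G M z (i + 1) + c2K G M z i := by
  have h1 : c2A G M z (i + 1) + c2K G M z i =
      c2E G M z i (fun _ _ _ => (1 : ℝ)) / 2 ^ (i + 1) := by
    unfold c2A c2K kf
    rw [← sum_div, ← add_div]
    congr 1
    have h2 : ∑ w : V, ((liv G M z (i + 1) w).card : ℝ) =
        ∑ w : V, ∑ q ∈ liv G M z (i + 1) w, (1 : ℝ) := by
      refine sum_congr rfl fun w _ => ?_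
      rw [sum_const, nsmul_one]
    rw [h2, c2_exch hz i (fun _ => (1 : ℝ)), ← c2E_add]
    congr 1
    funext x y q
    split_ifs <;> norm_num
  rw [h1, c2E_const z i (fun _ => (1 : ℝ))]
  unfold c2A
  rw [← sum_sub_distrib, sum_div]
  refine sum_le_sum fun w _ => ?_
  rw [sum_const, one_mul, nsmul_eq_mul]
  unfold kf
  by_cases hne : (liv G M z i w).Nonempty
  · obtain ⟨q, hq⟩ := hne
    have h3 := c2d_ge hc hM hz hb hi hq
    have h4 : ((liv G M z i w).card : ℝ) / 2 ^ i - ((liv G M z i w).card : ℝ) / 2 ^ i *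
        nsum G z w = ((liv G M z i w).card : ℝ) * (2 - 2 * nsum G z w) / 2 ^ (i + 1) := by
      rw [pow_succ]
      field_simp
    rw [h4]
    refine div_le_div_of_nonneg_right ?_ (by positivity)
    exact mul_le_mul_of_nonneg_left h3 (by positivity)
  · rw [not_nonempty_iff_eq_empty] at hne
    rw [hne]
    simp

theorem c2_mass_sum (hc : Cubic G) (hM : IsMat G M) {m : ℕ} {z : V → ℝ} (hz : ∀ v, 0 ≤ z v)
    (hb : ∀ p ∈ augs G M m, 1 ≤ cc z p.2.1 + cc z p.2.2) (k : ℕ) (hk : k ≤ m) :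
    c2A G M z 0 - (∑ i ∈ range k, ∑ w : V, kf G M z i w * nsum G z w) -
      ∑ i ∈ range k, c2K G M z i ≤ c2A G M z k := by
  induction k with
  | zero => simp
  | succ k ih =>
    rw [sum_range_succ, sum_range_succ]
    have h1 := c2_mass_step hc hM hz hb (i := k) (by omega)
    have h2 := ih (by omega)
    linarith

theorem c2_start {z : V → ℝ} (hz : ∀ v, 0 ≤ z v) :
    ((unm M).card : ℝ) - 2 * ∑ u ∈ unm M, z u + 2 * c2B G M z 0 ≤ c2A G M z 0 ∧
      c2B G M z 0 ≤ ∑ u ∈ unm M, z u := by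
  have hcc : ∀ x : V, cc z [x] = z x := by
    intro x
    unfold cc
    simp
  have hliv : ∀ x : V, Unm M x → z x < 1 / 2 → liv G M z 0 x = {[x]} := by
    intro x hx hzx
    ext q
    rw [c1_mem_liv, mem_halves_zero, mem_singleton]
    constructor
    · exact fun h => h.1.2
    · rintro rfl
      exact ⟨⟨hx, rfl⟩, by rw [hcc]; exact hzx⟩
  have hliv2 : ∀ x : V, ¬ (Unm M x ∧ z x < 1 / 2) → liv G M z 0 x = ∅ := by
    intro x hx
    refine eq_empty_of_forall_notMem fun q hq => hx ?_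
    obtain ⟨h1, h2⟩ := c1_mem_liv.1 hq
    obtain ⟨h3, rfl⟩ := mem_halves_zero.1 h1
    rw [hcc] at h2
    exact ⟨h3, h2⟩
  have hU : ∀ F : V → ℝ, ∑ u ∈ unm M, F u = ∑ u : V, if Unm M u then F u else 0 := by
    intro F
    rw [unm, sum_filter]
  have hcard : ((unm M).card : ℝ) = ∑ u : V, if Unm M u then (1 : ℝ) else 0 := by
    rw [← hU, sum_const, nsmul_one]
  rw [hcard, hU]
  unfold c2A c2B
  rw [pow_zero, div_one]
  constructor
  · rw [mul_sum, mul_sum, ← sum_sub_distrib, ← sum_add_distrib]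
    refine sum_le_sum fun x _ => ?_
    unfold kf
    rw [pow_zero, div_one]
    have hzx := hz x
    by_cases h1 : Unm M x
    · rw [if_pos h1, if_pos h1]
      by_cases h2 : z x < 1 / 2
      · rw [hliv x h1 h2, sum_singleton, hcc, card_singleton]
        push_cast
        linarith
      · rw [hliv2 x fun h => h2 h.2]
        simp only [sum_empty, card_empty, Nat.cast_zero]
        push Not at h2
        linarith
    · rw [if_neg h1, if_neg h1, hliv2 x fun h => h1 h.1]
      simp
  · refine sum_le_sum fun x _ => ?_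
    have hzx := hz x
    by_cases h1 : Unm M x
    · rw [if_pos h1]
      by_cases h2 : z x < 1 / 2
      · rw [hliv x h1 h2, sum_singleton, hcc]
      · rw [hliv2 x fun h => h2 h.2, sum_empty]
        exact hzx
    · rw [if_neg h1, hliv2 x fun h => h1 h.1, sum_empty]

/-- Cauchy-Schwarz in the form used here. -/
theorem c2_cs (a b : V → ℝ) : ∑ v, a v * b v ≤ Real.sqrt ((∑ v, (a v) ^ 2) * ∑ v, (b v) ^ 2) := by
  refine Real.le_sqrt_of_sq_le ?_
  exact sum_mul_sq_le_sq_mul_sq univ a b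

/-- The matching sum of the load. -/
theorem c2_P_sq (hM : IsMat G M) (z : V → ℝ) :
    ∑ y : V, (∑ x : V, if M.Adj x y then z x + z y else 0) ^ 2 ≤ 4 * ∑ v, (z v) ^ 2 := by
  have hone : ∀ y : V, (∑ x : V, if M.Adj x y then (1 : ℝ) else 0) ≤ 1 := by
    intro y
    by_cases h : ∃ p, M.Adj p y
    · obtain ⟨p, hp⟩ := h
      rw [sum_eq_single p, if_pos hp]
      · intro x _ hne
        rw [if_neg fun h => hne (hM.uniq y x p h.symm hp.symm)]
      · intro h
        exact absurd (mem_univ _) h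
    · push Not at h
      rw [sum_eq_zero fun x _ => if_neg (h x)]
      norm_num
  have h1 : ∀ y : V, (∑ x : V, if M.Adj x y then z x + z y else 0) ^ 2 ≤
      ∑ x : V, if M.Adj x y then 2 * ((z x) ^ 2 + (z y) ^ 2) else 0 := by
    intro y
    by_cases h : ∃ p, M.Adj p y
    · obtain ⟨p, hp⟩ := h
      rw [sum_eq_single p, if_pos hp, sum_eq_single p, if_pos hp]
      · nlinarith [sq_nonneg (z p - z y)]
      · intro x _ hne
        rw [if_neg fun h => hne (hM.uniq y x p h.symm hp.symm)]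
      · intro h
        exact absurd (mem_univ _) h
      · intro x _ hne
        rw [if_neg fun h => hne (hM.uniq y x p h.symm hp.symm)]
      · intro h
        exact absurd (mem_univ _) h
    · push Not at h
      rw [sum_eq_zero fun x _ => if_neg (h x), sum_eq_zero fun x _ => if_neg (h x)]
      norm_num
  refine (sum_le_sum fun y _ => h1 y).trans ?_
  have h3 : (∑ x : V, 2 * (z x) ^ 2 * ∑ y : V, if M.Adj y x then (1 : ℝ) else 0) =
      ∑ y : V, ∑ x : V, if M.Adj x y then 2 * (z x) ^ 2 else 0 := by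
    rw [sum_comm]
    refine sum_congr rfl fun x _ => ?_
    rw [mul_sum]
    refine sum_congr rfl fun y _ => ?_
    by_cases h : M.Adj x y
    · rw [if_pos h, if_pos h.symm, mul_one]
    · rw [if_neg h, if_neg fun h' => h h'.symm, mul_zero]
  have h2 : ∑ y : V, ∑ x : V, (if M.Adj x y then 2 * ((z x) ^ 2 + (z y) ^ 2) else 0) =
      (∑ y : V, ∑ x : V, if M.Adj x y then 2 * (z x) ^ 2 else 0) +
      ∑ y : V, 2 * (z y) ^ 2 * ∑ x : V, if M.Adj x y then (1 : ℝ) else 0 := by
    rw [← sum_add_distrib]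
    refine sum_congr rfl fun y _ => ?_
    rw [mul_sum, ← sum_add_distrib]
    refine sum_congr rfl fun x _ => ?_
    split_ifs
    · ring
    · ring
  rw [h2, ← h3]
  have h4 : ∀ y : V, 2 * (z y) ^ 2 * (∑ x : V, if M.Adj x y then (1 : ℝ) else 0) ≤
      2 * (z y) ^ 2 := by
    intro y
    have := hone y
    have h5 : 0 ≤ 2 * (z y) ^ 2 := by positivity
    calc 2 * (z y) ^ 2 * (∑ x : V, if M.Adj x y then (1 : ℝ) else 0) ≤ 2 * (z y) ^ 2 * 1 :=
          mul_le_mul_of_nonneg_left this h5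
      _ = _ := mul_one _
  have h6 := sum_le_sum fun (y : V) (_ : y ∈ (univ : Finset V)) => h4 y
  rw [← mul_sum] at h6
  linarith

theorem gz_mass (hc : Cubic G) (hM : IsMat G M) (m : ℕ) (z : V → ℝ) (hz : ∀ v, 0 ≤ z v)
    (hb : ∀ p ∈ augs G M m, 1 ≤ cc z p.2.1 + cc z p.2.2) :
    (51 / 50 : ℝ) ^ m * (((unm M).card : ℝ) -
        3 * Real.sqrt ((∑ v, (z v) ^ 2) * ((unm M).card : ℝ)) -
        3 * Real.sqrt ((∑ v, (z v) ^ 2) * ∑ y, (nsum G (gz G M z m) y) ^ 2)) ≤
      ∑ x, gz G M z m x := by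
  set Z2 := ∑ v, (z v) ^ 2 with hZ2
  set S2 := ∑ y, (nsum G (gz G M z m) y) ^ 2 with hS2
  have hZ0 : 0 ≤ Z2 := sum_nonneg fun v _ => sq_nonneg _
  -- the truncated test function
  set F : V → ℝ := fun w => ∑ i ∈ range m, kf G M z i w with hF
  have hF0 : ∀ w, 0 ≤ F w := fun w => sum_nonneg fun i _ => kf_nonneg z i w
  have hFg : ∀ w, F w ≤ gz G M z m w := by
    intro w
    unfold gz
    rw [sum_range_succ, hF]
    have h1 : ∑ i ∈ range m, kf G M z i w ≤ ∑ i ∈ range m, (51 / 50 : ℝ) ^ i * kf G M z i w := by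
      refine sum_le_sum fun i _ => ?_
      have h2 : (1 : ℝ) ≤ (51 / 50 : ℝ) ^ i := one_le_pow₀ (by norm_num)
      have h3 := kf_nonneg (G := G) (M := M) z i w
      nlinarith
    have h3 : 0 ≤ (51 / 50 : ℝ) ^ m * kf G M z m w :=
      mul_nonneg (by positivity) (kf_nonneg z m w)
    dsimp only
    linarith
  have hns : ∀ y, nsum G F y ≤ nsum G (gz G M z m) y := by
    intro y
    unfold nsum
    refine sum_le_sum fun w _ => ?_
    split_ifs
    · exact hFg w
    · exact le_rfl
  have hns0 : ∀ y, 0 ≤ nsum G F y := by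
    intro y
    unfold nsum
    refine sum_nonneg fun w _ => ?_
    split_ifs
    · exact hF0 w
    · exact le_rfl
  have hSF : ∑ y, (nsum G F y) ^ 2 ≤ S2 := by
    refine sum_le_sum fun y _ => ?_
    exact pow_le_pow_left₀ (hns0 y) (hns y) 2
  have hSF0 : 0 ≤ ∑ y, (nsum G F y) ^ 2 := sum_nonneg fun y _ => sq_nonneg _
  -- the loss
  have hloss : ∑ i ∈ range m, ∑ w : V, kf G M z i w * nsum G z w ≤ Real.sqrt (Z2 * S2) := by
    have h1 : ∑ i ∈ range m, ∑ w : V, kf G M z i w * nsum G z w = ∑ v, z v * nsum G F v := by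
      rw [sum_comm]
      have h2 : ∀ w : V, ∑ i ∈ range m, kf G M z i w * nsum G z w = ∑ v : V,
          if G.Adj w v then F w * z v else 0 := by
        intro w
        rw [← sum_mul]
        unfold nsum
        rw [mul_sum]
        refine sum_congr rfl fun v _ => ?_
        split_ifs
        · rfl
        · simp
      rw [sum_congr rfl fun w _ => h2 w, sum_comm]
      refine sum_congr rfl fun v _ => ?_
      unfold nsum
      rw [mul_sum]
      refine sum_congr rfl fun w _ => ?_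
      by_cases h : G.Adj w v
      · rw [if_pos h, if_pos h.symm]
        ring
      · rw [if_neg h, if_neg fun h' => h h'.symm]
        simp
    rw [h1]
    refine (c2_cs z (nsum G F)).trans (Real.sqrt_le_sqrt ?_)
    exact mul_le_mul_of_nonneg_left hSF hZ0
  -- the new load
  have hY : ∑ i ∈ range m, c2Y G M z i ≤ Real.sqrt (Z2 * S2) := by
    set P : V → ℝ := fun y => ∑ x : V, if M.Adj x y then z x + z y else 0 with hP
    have hP0 : ∀ y, 0 ≤ P y := by
      intro y
      refine sum_nonneg fun x _ => ?_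
      have h1 := hz x
      have h2 := hz y
      split_ifs
      · linarith
      · exact le_rfl
    have h1 : ∀ i, c2Y G M z i ≤ 1 / 2 * ∑ y : V, P y * nsum G (kf G M z i) y := by
      intro i
      have h2 : c2E G M z i (fun x y _ => z x + z y) ≤
          ∑ w : V, ((liv G M z i w).card : ℝ) * ∑ y : V, if G.Adj y w then P y else 0 := by
        unfold c2E
        refine sum_le_sum fun w _ => ?_
        rw [sum_const, nsmul_eq_mul]
        refine mul_le_mul_of_nonneg_left ?_ (by positivity)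
        refine sum_le_sum fun y _ => ?_
        by_cases h : G.Adj y w
        · rw [if_pos h]
          refine sum_le_sum fun x _ => ?_
          have h1 := hz x
          have h2 := hz y
          by_cases h3 : M.Adj x y
          · rw [if_pos h3]
            split_ifs
            · exact le_rfl
            · linarith
          · rw [if_neg h3, if_neg fun h' => h3 h'.1]
        · rw [if_neg h]
          refine le_of_eq (sum_eq_zero fun x _ => ?_)
          rw [if_neg fun h' => h h'.2.1]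
      have h3 : (∑ w : V, ((liv G M z i w).card : ℝ) * ∑ y : V, if G.Adj y w then P y else 0) =
          2 ^ i * ∑ y : V, P y * nsum G (kf G M z i) y := by
        rw [mul_sum]
        have h4 : ∀ w : V, ((liv G M z i w).card : ℝ) * (∑ y : V, if G.Adj y w then P y else 0) =
            ∑ y : V, if G.Adj y w then ((liv G M z i w).card : ℝ) * P y else 0 := by
          intro w
          rw [mul_sum]
          refine sum_congr rfl fun y _ => ?_
          split_ifs
          · rfl
          · simp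
        rw [sum_congr rfl fun w _ => h4 w, sum_comm]
        refine sum_congr rfl fun y _ => ?_
        unfold nsum
        rw [mul_sum, mul_sum]
        refine sum_congr rfl fun w _ => ?_
        split_ifs
        · unfold kf
          field_simp
        · simp
      rw [h3] at h2
      unfold c2Y
      rw [div_le_iff₀ (by positivity)]
      refine h2.trans (le_of_eq ?_)
      rw [pow_succ]
      ring
    have h5 : ∑ i ∈ range m, c2Y G M z i ≤ 1 / 2 * ∑ y : V, P y * nsum G F y := by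
      refine (sum_le_sum fun i _ => h1 i).trans (le_of_eq ?_)
      rw [← mul_sum, sum_comm]
      congr 1
      refine sum_congr rfl fun y _ => ?_
      rw [← mul_sum]
      congr 1
      unfold nsum
      rw [sum_comm]
      refine sum_congr rfl fun w _ => ?_
      split_ifs
      · rfl
      · simp
    refine h5.trans ?_
    have h6 := c2_cs P (nsum G F)
    have h7 := c2_P_sq hM z
    have h8 : Real.sqrt ((∑ v, (P v) ^ 2) * ∑ v, (nsum G F v) ^ 2) ≤ 2 * Real.sqrt (Z2 * S2) := by
      have h9 : (∑ v, (P v) ^ 2) * ∑ v, (nsum G F v) ^ 2 ≤ 4 * (Z2 * S2) := by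
        calc (∑ v, (P v) ^ 2) * ∑ v, (nsum G F v) ^ 2 ≤ (4 * Z2) * S2 :=
              mul_le_mul h7 hSF hSF0 (by linarith)
          _ = 4 * (Z2 * S2) := by ring
      refine (Real.sqrt_le_sqrt h9).trans (le_of_eq ?_)
      rw [Real.sqrt_mul (by norm_num : (0 : ℝ) ≤ 4)]
      congr 1
      rw [show (4 : ℝ) = 2 ^ 2 by norm_num]
      exact Real.sqrt_sq (by norm_num)
    linarith
  -- the unmatched vertices
  have hZU : ∑ u ∈ unm M, z u ≤ Real.sqrt (Z2 * ((unm M).card : ℝ)) := by
    refine Real.le_sqrt_of_sq_le ?_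
    refine (sq_sum_le_card_mul_sum_sq (s := unm M) (f := z)).trans ?_
    rw [mul_comm]
    refine mul_le_mul_of_nonneg_right ?_ (by positivity)
    exact sum_le_sum_of_subset_of_nonneg (subset_univ _) fun v _ _ => sq_nonneg _
  obtain ⟨hs1, hs2⟩ := c2_start (G := G) (M := M) hz
  have hk := c2_kill_sum hc hM hz m
  have hBm := c2B_nonneg (G := G) (M := M) hz m
  have hms := c2_mass_sum hc hM hz hb m le_rfl
  have hA : ((unm M).card : ℝ) - 3 * Real.sqrt (Z2 * ((unm M).card : ℝ)) -
      3 * Real.sqrt (Z2 * S2) ≤ c2A G M z m := by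
    linarith
  have hfin : (51 / 50 : ℝ) ^ m * c2A G M z m ≤ ∑ x, gz G M z m x := by
    unfold c2A
    rw [mul_sum]
    refine sum_le_sum fun x _ => ?_
    unfold gz
    rw [sum_range_succ]
    have h1 : 0 ≤ ∑ i ∈ range m, (51 / 50 : ℝ) ^ i * kf G M z i x :=
      sum_nonneg fun i _ => mul_nonneg (by positivity) (kf_nonneg z i x)
    linarith
  exact (mul_le_mul_of_nonneg_left hA (by positivity)).trans hfin

end NM71
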