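import Pool.Agent.NM70.Rounds2

set_option autoImplicit false

/-! V2-G: auxiliary lemmas. -/

namespace NM71

open Finset Classical NM70

variable {V : Type*} [Fintype V] {G : SimpleGraph V}

omit [Fintype V] in
theorem not_near_of_desc {g : ℕ} (hg : (g : ℕ∞) ≤ G.egirth) {R : ℕ} (hR : 2 * R + 6 ≤ g)
    {c a y : V} {k : ℕ} (hk : R + 1 ≤ k) (hk' : k ≤ R + 2) (hd : Desc G c a k y) :
    ¬ Near G R a y ∧ ¬ Near G R c y := by
  obtain ⟨l, h1, h2, h3, h4⟩ := hd
  constructor
  · intro hn
    obtain ⟨l2, g1, g2, g3, g4⟩ := near_nb hn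
    have h5 := nb_append_left h1
    have h6 := nb_unique hg h5 (nb_reverse g1) (by rw [h2, List.head?_reverse, g3])
      (by rw [h3, List.getLast?_reverse, g2]) (by rw [List.length_reverse]; omega)
    have h7 := congrArg List.length h6
    rw [List.length_reverse] at h7
    omega
  · intro hn
    obtain ⟨l2, g1, g2, g3, g4⟩ := near_nb hn
    have h6 := nb_unique hg h1 (nb_reverse g1)
      (by
        rw [List.head?_reverse, g3, List.head?_append, h2]
        rfl)
      (by rw [List.getLast?_reverse, g2, List.getLast?_append]; rfl)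
      (by rw [List.length_reverse, List.length_append]; simp only [List.length_singleton]; omega)
    have h7 := congrArg List.length h6
    rw [List.length_reverse, List.length_append] at h7
    simp only [List.length_singleton] at h7
    omega

theorem avg_mono {Ω : Type*} [Fintype Ω] {X Y : Ω → ℝ} (h : ∀ ω, X ω ≤ Y ω) :
    avg X ≤ avg Y := by
  unfold avg
  exact div_le_div_of_nonneg_right (sum_le_sum fun ω _ => h ω) (Nat.cast_nonneg _)

omit [Fintype V] in
theorem cover_mono {x y : ℝ} (hxy : x ≤ y) (h : HasPathCover G x) : HasPathCover G y := by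
  obtain ⟨F, h1, h2, h3, h4⟩ := h
  exact ⟨F, h1, h2, h3, h4.trans hxy⟩

theorem pathCover_trivial : HasPathCover G (Fintype.card V) := by
  refine ⟨⊥, bot_le, SimpleGraph.isAcyclic_bot, ?_, ?_⟩
  · intro v
    simp
  · have h1 : Nat.card (⊥ : SimpleGraph V).ConnectedComponent ≤ Nat.card V :=
      Nat.card_le_card_of_surjective (fun v => (⊥ : SimpleGraph V).connectedComponentMk v)
        (fun c => by
          induction c using SimpleGraph.ConnectedComponent.ind with
          | h v => exact ⟨v, rfl⟩)
    rw [Nat.card_eq_fintype_card (α := V)] at h1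
    exact_mod_cast h1

theorem exists_le_avg' {Ω : Type*} [Fintype Ω] [Nonempty Ω] (X : Ω → ℝ) : ∃ ω, X ω ≤ avg X := by
  by_contra h
  push Not at h
  have h1 : ∑ _ω : Ω, avg X < ∑ ω, X ω :=
    sum_lt_sum_of_nonempty univ_nonempty fun ω _ => h ω
  rw [sum_const, card_univ, nsmul_eq_mul] at h1
  unfold avg at h1
  have h2 : (0 : ℝ) < Fintype.card Ω := by exact_mod_cast Fintype.card_pos
  rw [mul_div_cancel₀ _ h2.ne'] at h1
  exact lt_irrefl _ h1

end NM71
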