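import Pool.Agent.NM71.Defs

set_option autoImplicit false

/-! V2 HAND D: the rule is local and natural. -/

namespace NM71

open Finset Classical NM70

variable {V : Type*} [Fintype V] {G M M' : SimpleGraph V}
variable {σ : Equiv.Perm V} {S : Set V} {k : ℕ}

/-! ### Loads -/

/-- The load is natural if the weights are. -/
theorem d2_ld (h : H6 G M M' σ S k) {m a : ℕ} (ha : 2 * m ≤ a) {W W' : PT V → ℕ}
    (hW : ∀ p ∈ augs G M m, p.1.1 ∈ core G S (k + a) → p.1.2 ∈ core G S (k + a) →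
      W' (pmap σ p) = W p) {v : V} (hv : v ∈ core G S (k + a + (2 * m + 1))) :
    ld G M' m W' (σ v) = ld G M m W v := by
  unfold ld
  refine (Finset.sum_nbij' (fun p => pmap σ p) (fun p => pmap σ.symm p) ?_ ?_ ?_ ?_ ?_).symm
  · intro p hp
    obtain ⟨h1, h2⟩ := Finset.mem_filter.1 hp
    obtain ⟨h3, h4⟩ := h6_heads_core h.hM h1 h2 hv
    exact Finset.mem_filter.2
      ⟨(h6_augs h (core_anti (by omega) h3) (core_anti (by omega) h4)).2 h1, h6_mem_pmap.2 h2⟩
  · intro p' hp'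
    obtain ⟨h1, h2⟩ := Finset.mem_filter.1 hp'
    rw [← h6_pmap_symm σ p'] at h1 h2
    have h2' := h6_mem_pmap.1 h2
    obtain ⟨h3, h4⟩ := h6_heads_pull h h1 h2' hv
    exact Finset.mem_filter.2
      ⟨(h6_augs h (core_anti (by omega) h3) (core_anti (by omega) h4)).1 h1, h2'⟩
  · intro p _
    exact h6_pmap_symm σ.symm p
  · intro p _
    exact h6_pmap_symm σ p
  · intro p hp
    obtain ⟨h1, h2⟩ := Finset.mem_filter.1 hp
    obtain ⟨h3, h4⟩ := h6_heads_core h.hM h1 h2 hv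
    exact (hW p h1 h3 h4).symm

/-- The total load along a path is natural if the weights are. -/
theorem d2_pld (h : H6 G M M' σ S k) {m a : ℕ} (ha : 2 * m ≤ a) {W W' : PT V → ℕ}
    (hW : ∀ p ∈ augs G M m, p.1.1 ∈ core G S (k + a) → p.1.2 ∈ core G S (k + a) →
      W' (pmap σ p) = W p) {p : PT V} (hp : p ∈ augs G M m)
    (h1 : p.1.1 ∈ core G S (k + a + (4 * m + 1))) (h2 : p.1.2 ∈ core G S (k + a + (4 * m + 1))) :
    pld G M' m W' (pmap σ p) = pld G M m W p := by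
  unfold pld
  have e : (vs (pmap σ p)).toFinset = (vs p).toFinset.image σ := by
    ext v'
    rw [List.mem_toFinset, Finset.mem_image]
    obtain ⟨v, rfl⟩ := σ.surjective v'
    rw [h6_mem_pmap]
    constructor
    · intro hv
      exact ⟨v, List.mem_toFinset.2 hv, rfl⟩
    · rintro ⟨w, hw, hwv⟩
      rw [σ.injective hwv] at hw
      exact List.mem_toFinset.1 hw
  rw [e, Finset.sum_image fun x _ y _ hxy => σ.injective hxy]
  refine Finset.sum_congr rfl fun v hv => ?_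
  refine d2_ld h ha hW ?_
  exact h6_vs_core h.hM hp (core_anti (by omega) h1) (core_anti (by omega) h2)
    (List.mem_toFinset.1 hv)

/-- The weights after `j` doubling steps are natural. -/
theorem d2_WW (h : H6 G M M' σ S k) {m K : ℕ} (j : ℕ) : ∀ p ∈ augs G M m,
    p.1.1 ∈ core G S (k + (2 * m + (4 * m + 1) * j)) →
    p.1.2 ∈ core G S (k + (2 * m + (4 * m + 1) * j)) →
      WW G M' m K j (pmap σ p) = WW G M m K j p := by
  induction j with
  | zero => exact fun _ _ _ _ => rfl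
  | succ j ih =>
    intro p hp h1 h2
    have e : k + (2 * m + (4 * m + 1) * (j + 1)) =
        k + (2 * m + (4 * m + 1) * j) + (4 * m + 1) := by ring
    rw [e] at h1 h2
    have h3 := d2_pld h (a := 2 * m + (4 * m + 1) * j) (Nat.le_add_right _ _) ih hp h1 h2
    have h4 := ih p hp (core_anti (Nat.le_add_right _ _) h1) (core_anti (Nat.le_add_right _ _) h2)
    show (if pld G M' m (WW G M' m K j) (pmap σ p) < 2 ^ K then 2 * WW G M' m K j (pmap σ p)
      else WW G M' m K j (pmap σ p)) = if pld G M m (WW G M m K j) p < 2 ^ K then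
        2 * WW G M m K j p else WW G M m K j p
    rw [h3, h4]

/-- The depth needed for the final weights. -/
def d2r (m : ℕ) : ℕ := 2 * m + (4 * m + 1) * KD m

theorem d2r_le (m : ℕ) : d2r m + (6 * m + 3) ≤ rad m := by
  unfold d2r rad KD
  nlinarith

theorem d2r_ge (m : ℕ) : 2 * m ≤ d2r m := Nat.le_add_right _ _

theorem d2_WF (h : H6 G M M' σ S k) {m : ℕ} : ∀ p ∈ augs G M m,
    p.1.1 ∈ core G S (k + d2r m) → p.1.2 ∈ core G S (k + d2r m) →
      WF G M' m (pmap σ p) = WF G M m p :=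
  d2_WW h (KD m)

theorem d2_zz (h : H6 G M M' σ S k) {m : ℕ} {v : V}
    (hv : v ∈ core G S (k + d2r m + (2 * m + 1))) : zz G M' m (σ v) = zz G M m v := by
  unfold zz
  rw [d2_ld h (d2r_ge m) (d2_WF h) hv]

/-! ### The test function -/

omit [Fintype V] in
theorem d2_cc {z z' : V → ℝ} {l : List V} (hz : ∀ v ∈ l, z' (σ v) = z v) :
    cc z' (l.map σ) = cc z l := by
  unfold cc
  rw [List.map_map]
  refine congrArg List.sum (List.map_congr_left fun v hv => ?_)
  exact hz v hv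

theorem d2_kf (h : H6 G M M' σ S k) {z z' : V → ℝ} {i : ℕ} {x : V}
    (hx : x ∈ core G S (k + 2 * i)) (hz : ∀ v, Near G (2 * i) x v → z' (σ v) = z v) :
    kf G M' z' i (σ x) = kf G M z i x := by
  unfold kf
  have e : (liv G M' z' i (σ x)).card = (liv G M z i x).card := by
    refine (Finset.card_nbij' (fun l => l.map σ) (fun l => l.map σ.symm) ?_ ?_ ?_ ?_).symm
    · intro l hl
      obtain ⟨h1, h2⟩ := Finset.mem_filter.1 hl
      refine Finset.mem_filter.2 ⟨(h6_halves h i hx l).2 h1, ?_⟩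
      rw [d2_cc fun v hv => hz v (h6_near h.hM i h1 hv)]
      exact h2
    · intro l' hl'
      obtain ⟨h1, h2⟩ := Finset.mem_filter.1 hl'
      rw [← h6_map_symm σ l'] at h1 h2
      have h3 := (h6_halves h i hx _).1 h1
      refine Finset.mem_filter.2 ⟨h3, ?_⟩
      rw [d2_cc fun v hv => hz v (h6_near h.hM i h3 hv)] at h2
      exact h2
    · intro l _
      exact h6_map_symm' σ l
    · intro l _
      exact h6_map_symm σ l
  rw [e]

/-- The test function is natural under local isomorphisms. -/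
theorem gg_resp (hM : ∀ x y, M.Adj x y → G.Adj x y) (hM' : ∀ x y, M'.Adj x y → G.Adj x y)
    (σ : Equiv.Perm V) (S : Set V) (hG : ∀ x ∈ S, ∀ y, G.Adj x y ↔ G.Adj (σ x) (σ y)) (k : ℕ)
    (hMM : ∀ x ∈ core G S k, ∀ y, M.Adj x y ↔ M'.Adj (σ x) (σ y)) (m : ℕ) :
    ∀ x ∈ core G S (k + rad m), gg G M m x = gg G M' m (σ x) := by
  intro x hx
  have h : H6 G M M' σ S k := ⟨hM, hM', hG, hMM⟩
  have hr := d2r_le m
  unfold gg gz
  refine Finset.sum_congr rfl fun i hi => ?_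
  have hi' := Finset.mem_range.1 hi
  have hi2 : 2 * i ≤ 2 * m := by omega
  have hx2 : x ∈ core G S (k + d2r m + (2 * m + 1) + 2 * m) := core_anti (by omega) hx
  rw [d2_kf h (core_anti (by omega) hx) fun v hv => d2_zz h (core_near hx2 (hv.mono hi2))]

/-! ### Selected paths -/

theorem d2_Prp (h : H6 G M M' σ S k) {lam lam' : PT V → ℕ} (hl : H6L σ S lam lam') {m : ℕ}
    {p : PT V} (h1 : p.1.1 ∈ core G S (k + d2r m)) (h2 : p.1.2 ∈ core G S (k + d2r m)) :
    Prp G M' m lam' (pmap σ p) ↔ Prp G M m lam p := by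
  have hr := d2r_ge m
  have h3 : p.1.1 ∈ core G S (k + 2 * m) := core_anti (by omega) h1
  have h4 : p.1.2 ∈ core G S (k + 2 * m) := core_anti (by omega) h2
  unfold Prp
  rw [h6_augs h h3 h4]
  refine and_congr_right fun hp => ?_
  rw [d2_WF h p hp h1 h2, hl p (h6_core_S h1) fun v hv => h6_core_S (h6_vs_core h.hM hp h3 h4 hv)]

theorem d2_Sel (h : H6 G M M' σ S k) {lam lam' : PT V → ℕ} (hl : H6L σ S lam lam') {m : ℕ}
    {p : PT V} (h1 : p.1.1 ∈ core G S (k + d2r m)) (h2 : p.1.2 ∈ core G S (k + d2r m))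
    (hv : ∀ v ∈ vs p, v ∈ core G S (k + d2r m + (2 * m + 1))) :
    Sel G M' m lam' (pmap σ p) ↔ Sel G M m lam p := by
  unfold Sel
  rw [d2_Prp h hl h1 h2]
  refine and_congr_right fun _ => ?_
  constructor
  · intro hs q hq hqp v hvp hvq
    obtain ⟨h3, h4⟩ := h6_heads_core h.hM hq.1 hvq (hv v hvp)
    exact hs (pmap σ q) ((d2_Prp h hl h3 h4).2 hq) (fun e => hqp (h6_pmap_inj σ e)) (σ v)
      (h6_mem_pmap.2 hvp) (h6_mem_pmap.2 hvq)
  · intro hs q' hq' hqp v' hvp' hvq'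
    obtain ⟨v, rfl⟩ := σ.surjective v'
    obtain ⟨q, rfl⟩ : ∃ q, q' = pmap σ q := ⟨pmap σ.symm q', (h6_pmap_symm σ q').symm⟩
    have hvp := h6_mem_pmap.1 hvp'
    have hvq := h6_mem_pmap.1 hvq'
    obtain ⟨h3, h4⟩ := h6_heads_pull h hq'.1 hvq (hv v hvp)
    exact hs q ((d2_Prp h hl h3 h4).1 hq') (fun e => hqp (by rw [e])) v hvp hvq

theorem d2_Sel_at (h : H6 G M M' σ S k) {lam lam' : PT V → ℕ} (hl : H6L σ S lam lam') {m : ℕ}
    {p : PT V} {x : V} (hx : x ∈ core G S (k + d2r m + (6 * m + 2))) (hxp : x ∈ vs p) :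
    Sel G M' m lam' (pmap σ p) ↔ Sel G M m lam p := by
  have hr := d2r_ge m
  have hx' : x ∈ core G S (k + d2r m + (4 * m + 1) + (2 * m + 1)) := core_anti (by omega) hx
  have key : p ∈ augs G M m → (Sel G M' m lam' (pmap σ p) ↔ Sel G M m lam p) := by
    intro hp
    obtain ⟨h3, h4⟩ := h6_heads_core h.hM hp hxp hx'
    refine d2_Sel h hl (core_anti (by omega) h3) (core_anti (by omega) h4) fun v hv => ?_
    exact h6_vs_core h.hM hp (core_anti (by omega) h3) (core_anti (by omega) h4) hv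
  constructor
  · intro hs
    obtain ⟨h3, h4⟩ := h6_heads_pull h hs.1.1 hxp hx'
    exact (key ((h6_augs h (core_anti (by omega) h3) (core_anti (by omega) h4)).1 hs.1.1)).1 hs
  · intro hs
    exact (key hs.1.1).2 hs

/-! ### One round -/

/-- The relation whose symmetrisation is `step`. -/
def d2R (G M : SimpleGraph V) (m : ℕ) (lam : PT V → ℕ) (a b : V) : Prop :=
  (M.Adj a b ∧ ∀ p, Sel G M m lam p → a ∉ vs p ∧ b ∉ vs p) ∨
    ∃ p, Sel G M m lam p ∧ newP p a b

theorem d2_step_adj {m : ℕ} {lam : PT V → ℕ} {a b : V} :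
    (step G M m lam).Adj a b ↔ a ≠ b ∧ (d2R G M m lam a b ∨ d2R G M m lam b a) :=
  Iff.rfl

theorem d2_covered (h : H6 G M M' σ S k) {lam lam' : PT V → ℕ} (hl : H6L σ S lam lam') {m : ℕ}
    {x : V} (hx : x ∈ core G S (k + d2r m + (6 * m + 2))) :
    (∃ p, Sel G M' m lam' p ∧ σ x ∈ vs p) ↔ ∃ p, Sel G M m lam p ∧ x ∈ vs p := by
  constructor
  · rintro ⟨p', hs, hx'⟩
    obtain ⟨p, rfl⟩ : ∃ p, p' = pmap σ p := ⟨pmap σ.symm p', (h6_pmap_symm σ p').symm⟩
    have hxp := h6_mem_pmap.1 hx'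
    exact ⟨p, (d2_Sel_at h hl hx hxp).1 hs, hxp⟩
  · rintro ⟨p, hs, hxp⟩
    exact ⟨pmap σ p, (d2_Sel_at h hl hx hxp).2 hs, h6_mem_pmap.2 hxp⟩

theorem d2_R (h : H6 G M M' σ S k) {lam lam' : PT V → ℕ} (hl : H6L σ S lam lam') {m : ℕ}
    {a b : V} (hab : a ∈ core G S (k + d2r m + (6 * m + 3)) ∨
      b ∈ core G S (k + d2r m + (6 * m + 3))) :
    d2R G M' m lam' (σ a) (σ b) ↔ d2R G M m lam a b := by
  have hadj : M'.Adj (σ a) (σ b) ↔ M.Adj a b := by
    rcases hab with ha | hb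
    · exact (h.hMM a (core_anti (by omega) ha) b).symm
    · rw [SimpleGraph.adj_comm M', SimpleGraph.adj_comm M]
      exact (h.hMM b (core_anti (by omega) hb) a).symm
  refine or_congr ?_ ?_
  · rw [hadj]
    refine and_congr_right fun hm => ?_
    have hab2 : a ∈ core G S (k + d2r m + (6 * m + 2)) ∧
        b ∈ core G S (k + d2r m + (6 * m + 2)) := by
      rcases hab with ha | hb
      · exact ⟨core_anti (by omega) ha, h6_core_adj (by omega) ha (h.hM _ _ hm)⟩
      · exact ⟨h6_core_adj (by omega) hb (h.hM _ _ hm).symm, core_anti (by omega) hb⟩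
    have ha := d2_covered h hl hab2.1
    have hb := d2_covered h hl hab2.2
    constructor
    · intro hs p hp
      exact ⟨fun hx => (ha.2 ⟨p, hp, hx⟩).elim fun p' hp' => (hs p' hp'.1).1 hp'.2,
        fun hx => (hb.2 ⟨p, hp, hx⟩).elim fun p' hp' => (hs p' hp'.1).2 hp'.2⟩
    · intro hs p hp
      exact ⟨fun hx => (ha.1 ⟨p, hp, hx⟩).elim fun p' hp' => (hs p' hp'.1).1 hp'.2,
        fun hx => (hb.1 ⟨p, hp, hx⟩).elim fun p' hp' => (hs p' hp'.1).2 hp'.2⟩
  · have hsel : ∀ p : PT V, a ∈ vs p → b ∈ vs p →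
        (Sel G M' m lam' (pmap σ p) ↔ Sel G M m lam p) := by
      intro p hap hbp
      rcases hab with ha | hb
      · exact d2_Sel_at h hl (core_anti (by omega) ha) hap
      · exact d2_Sel_at h hl (core_anti (by omega) hb) hbp
    constructor
    · rintro ⟨p', hs, hn⟩
      obtain ⟨p, rfl⟩ : ∃ p, p' = pmap σ p := ⟨pmap σ.symm p', (h6_pmap_symm σ p').symm⟩
      obtain ⟨h1, h2⟩ := h6_newP_mem hs.1.1 hn
      exact ⟨p, (hsel p (h6_mem_pmap.1 h1) (h6_mem_pmap.1 h2)).1 hs, h6_newP.1 hn⟩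
    · rintro ⟨p, hs, hn⟩
      obtain ⟨h1, h2⟩ := h6_newP_mem hs.1.1 hn
      exact ⟨pmap σ p, (hsel p h1 h2).2 hs, h6_newP.2 hn⟩

/-- One round is natural under local isomorphisms. -/
theorem step_resp (hM : ∀ x y, M.Adj x y → G.Adj x y) (hM' : ∀ x y, M'.Adj x y → G.Adj x y)
    (σ : Equiv.Perm V) (S : Set V) (hG : ∀ x ∈ S, ∀ y, G.Adj x y ↔ G.Adj (σ x) (σ y)) (k : ℕ)
    (hMM : ∀ x ∈ core G S k, ∀ y, M.Adj x y ↔ M'.Adj (σ x) (σ y)) (m : ℕ)
    (lam lam' : PT V → ℕ)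
    (hlam : ∀ p : PT V, p.1.1 ∈ S → (∀ v ∈ vs p, v ∈ S) → lam' (pmap σ p) = lam p) :
    ∀ x ∈ core G S (k + rad m), ∀ y,
      (step G M m lam).Adj x y ↔ (step G M' m lam').Adj (σ x) (σ y) := by
  intro x hx y
  have h : H6 G M M' σ S k := ⟨hM, hM', hG, hMM⟩
  have hr := d2r_le m
  have hx' : x ∈ core G S (k + d2r m + (6 * m + 3)) := core_anti (by omega) hx
  rw [d2_step_adj, d2_step_adj, d2_R h hlam (Or.inl hx'), d2_R h hlam (Or.inr hx'),
    σ.injective.ne_iff]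

end NM71
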