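import Pool.Agent.NM70.Select
import Pool.Agent.NM71.Defs

set_option autoImplicit false

/-! V2-G: the abstract selection lemma with an average conflict bound. -/

namespace NM71

open Finset Classical NM70

/-- Random selection: each `p` is proposed with probability `W p / N` independently; it is
selected if no conflicting `p'` is proposed. -/
theorem select_abs2 {P : Type*} [Fintype P] [DecidableEq P] {N : ℕ} (hN : 0 < N) (W : P → ℕ)
    (hW : ∀ p, W p ≤ N) (R : P → P → Prop)
    (conf : P → ℕ)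
    (hconf : ∀ p, ∀ Q : Finset P, (∀ q ∈ Q, R p q ∧ q ≠ p) → ∑ p' ∈ Q, W p' ≤ conf p)
    (hC : 2 * ∑ p, W p * conf p ≤ N * ∑ p, W p)
    (S : (P → Fin N) → Finset P)
    (hS : ∀ ω p, (ω p : ℕ) < W p → (∀ p', p' ≠ p → R p p' → ¬ ((ω p' : ℕ) < W p')) →
      p ∈ S ω) :
    (∑ p, W p) * N ^ Fintype.card P ≤ 2 * N * ∑ ω : P → Fin N, (S ω).card := by
  have key : ∀ p, N * (W p * N ^ Fintype.card P) ≤ N * N *
      ((univ : Finset (P → Fin N)).filter fun ω => (ω p : ℕ) < W p ∧
        ∀ p', p' ≠ p → R p p' → ¬ ((ω p' : ℕ) < W p')).card +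
      (W p * conf p) * N ^ Fintype.card P := by
    intro p
    set A := (univ : Finset (P → Fin N)).filter fun ω => (ω p : ℕ) < W p with hA
    set B := (univ : Finset (P → Fin N)).filter fun ω => (ω p : ℕ) < W p ∧
        ∀ p', p' ≠ p → R p p' → ¬ ((ω p' : ℕ) < W p') with hB
    set Q := (univ : Finset P).filter fun p' => R p p' ∧ p' ≠ p with hQ
    have hsub : A ⊆ B ∪ Q.biUnion fun p' =>
        (univ : Finset (P → Fin N)).filter fun ω => (ω p : ℕ) < W p ∧ (ω p' : ℕ) < W p' := by
      intro ω hω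
      rw [hA, mem_filter] at hω
      rw [mem_union]
      by_cases h : ∀ p', p' ≠ p → R p p' → ¬ ((ω p' : ℕ) < W p')
      · left
        rw [hB, mem_filter]
        exact ⟨mem_univ _, hω.2, h⟩
      · right
        push Not at h
        obtain ⟨p', h1, h2, h3⟩ := h
        rw [mem_biUnion]
        refine ⟨p', ?_, ?_⟩
        · rw [hQ, mem_filter]
          exact ⟨mem_univ _, h2, h1⟩
        · rw [mem_filter]
          exact ⟨mem_univ _, hω.2, h3⟩
    have hcard : A.card ≤ B.card + ∑ p' ∈ Q,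
        ((univ : Finset (P → Fin N)).filter fun ω =>
          (ω p : ℕ) < W p ∧ (ω p' : ℕ) < W p').card :=
      (card_le_card hsub).trans ((card_union_le _ _).trans
        (Nat.add_le_add_left card_biUnion_le _))
    have h1 : N * N * A.card = N * (W p * N ^ Fintype.card P) := by
      rw [mul_assoc, hA, s_one p (hW p)]
    have h2 : N * N * ∑ p' ∈ Q, ((univ : Finset (P → Fin N)).filter fun ω =>
          (ω p : ℕ) < W p ∧ (ω p' : ℕ) < W p').card =
        W p * (∑ p' ∈ Q, W p') * N ^ Fintype.card P := by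
      rw [mul_sum, mul_sum, sum_mul]
      refine sum_congr rfl fun p' hp' => ?_
      rw [hQ, mem_filter] at hp'
      exact s_two hp'.2.2 (hW p) (hW p')
    have h3 : ∑ p' ∈ Q, W p' ≤ conf p := hconf p Q fun q hq => (mem_filter.1 hq).2
    calc N * (W p * N ^ Fintype.card P) = N * N * A.card := h1.symm
      _ ≤ N * N * B.card + W p * (∑ p' ∈ Q, W p') * N ^ Fintype.card P := by
        rw [← h2, ← mul_add]
        exact Nat.mul_le_mul_left _ hcard
      _ ≤ _ := Nat.add_le_add_left (Nat.mul_le_mul_right _ (Nat.mul_le_mul_left _ h3)) _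
  have hswap : ∑ ω : P → Fin N, (univ.filter fun p => (ω p : ℕ) < W p ∧
        ∀ p', p' ≠ p → R p p' → ¬ ((ω p' : ℕ) < W p')).card =
      ∑ p : P, ((univ : Finset (P → Fin N)).filter fun ω => (ω p : ℕ) < W p ∧
        ∀ p', p' ≠ p → R p p' → ¬ ((ω p' : ℕ) < W p')).card := by
    simp only [card_filter]
    rw [sum_comm]
  have hle : ∑ ω : P → Fin N, (univ.filter fun p => (ω p : ℕ) < W p ∧
        ∀ p', p' ≠ p → R p p' → ¬ ((ω p' : ℕ) < W p')).card ≤ ∑ ω : P → Fin N, (S ω).card := by
    refine sum_le_sum fun ω _ => card_le_card fun p hp => ?_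
    rw [mem_filter] at hp
    exact hS ω p hp.2.1 hp.2.2
  refine le_trans ?_ (Nat.mul_le_mul_left _ hle)
  rw [hswap]
  have hsum := sum_le_sum fun p (_ : p ∈ (univ : Finset P)) => key p
  rw [sum_add_distrib, ← mul_sum, ← mul_sum, ← sum_mul, ← sum_mul] at hsum
  set X := ∑ p : P, ((univ : Finset (P → Fin N)).filter fun ω => (ω p : ℕ) < W p ∧
        ∀ p', p' ≠ p → R p p' → ¬ ((ω p' : ℕ) < W p')).card with hX
  set C := ∑ p, W p * conf p with hCdef
  have h3 : 2 * (C * N ^ Fintype.card P) ≤ N * ((∑ p, W p) * N ^ Fintype.card P) := by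
    calc 2 * (C * N ^ Fintype.card P) = (2 * C) * N ^ Fintype.card P := by ring
      _ ≤ (N * ∑ p, W p) * N ^ Fintype.card P := Nat.mul_le_mul_right _ hC
      _ = _ := by ring
  have h4 : N * ((∑ p, W p) * N ^ Fintype.card P) ≤ N * (2 * N * X) := by
    have h5 : N * (2 * N * X) = 2 * (N * N * X) := by ring
    rw [h5]
    omega
  exact Nat.le_of_mul_le_mul_left h4 hN

end NM71
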