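import Pool.Agent.NM71.Defs

set_option autoImplicit false

/-! V2 HAND E: one round produces a matching with fewer unmatched vertices. -/

namespace NM71

open Finset Classical NM70

variable {V : Type*} [Fintype V] {G M : SimpleGraph V}

theorem e5_step_adj (hM : IsMat G M) {m : ℕ} {lam : PT V → ℕ} {a b : V} :
    (step G M m lam).Adj a b ↔
      (M.Adj a b ∧ ∀ p, Sel G M m lam p → a ∉ vs p ∧ b ∉ vs p) ∨
        ∃ p, Sel G M m lam p ∧ newP p a b := by
  unfold step
  rw [SimpleGraph.fromRel_adj]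
  constructor
  · rintro ⟨-, h | h⟩
    · exact h
    · rcases h with ⟨h1, h2⟩ | ⟨p, hp, h1⟩
      · exact Or.inl ⟨h1.symm, fun p hp => ⟨(h2 p hp).2, (h2 p hp).1⟩⟩
      · exact Or.inr ⟨p, hp, h5_newP_symm h1⟩
  · intro h
    refine ⟨?_, Or.inl h⟩
    rcases h with ⟨h1, -⟩ | ⟨p, hp, h1⟩
    · exact h1.ne
    · exact (h5_newP_adj hM hp.1.1 h1).ne

theorem e5_disj {m : ℕ} {lam : PT V → ℕ} {p p' : PT V} (hp : Sel G M m lam p)
    (hp' : Sel G M m lam p') {a : V} (ha : a ∈ vs p) (ha' : a ∈ vs p') : p = p' := by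
  by_contra hne
  exact hp.2 p' hp'.1 (fun h => hne h.symm) a ha ha'

theorem step_isMat (hM : IsMat G M) {g : ℕ} (hg : (g : ℕ∞) ≤ G.egirth) {m : ℕ}
    (hm : 4 * m + 2 ≤ g) (lam : PT V → ℕ) : IsMat G (step G M m lam) := by
  constructor
  · intro x y h
    rw [e5_step_adj hM] at h
    rcases h with ⟨h1, -⟩ | ⟨p, hp, h1⟩
    · exact hM.le _ _ h1
    · exact h5_newP_adj hM hp.1.1 h1
  · intro x y z h h'
    rw [e5_step_adj hM] at h h'
    rcases h with ⟨h1, h2⟩ | ⟨p, hp, h1⟩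
    · rcases h' with ⟨h3, -⟩ | ⟨p, hp, h3⟩
      · exact hM.uniq _ _ _ h1 h3
      · exact absurd (h5_newP_mem hp.1.1 h3).1 (h2 p hp).1
    · rcases h' with ⟨h3, h4⟩ | ⟨p', hp', h3⟩
      · exact absurd (h5_newP_mem hp.1.1 h1).1 (h4 p hp).1
      · have h5 := e5_disj hp hp' (h5_newP_mem hp.1.1 h1).1 (h5_newP_mem hp'.1.1 h3).1
        subst h5
        exact h5_newP_uniq hp.1.1 (augs_nodup hM hg hm hp.1.1) h1 h3

theorem e5_matched (hM : IsMat G M) {m : ℕ} {lam : PT V → ℕ} {p : PT V}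
    (hp : Sel G M m lam p) {a : V} (ha : a ∈ vs p) : ¬ Unm (step G M m lam) a := by
  intro h
  obtain ⟨b, hb⟩ := h5_newP_ex hp.1.1 ha
  exact h b ((e5_step_adj hM).2 (Or.inr ⟨p, hp, hb⟩))

set_option linter.unusedVariables false in
theorem step_unm (hM : IsMat G M) {g : ℕ} (hg : (g : ℕ∞) ≤ G.egirth) {m : ℕ}
    (hm : 4 * m + 2 ≤ g) (lam : PT V → ℕ) {x : V} (hx : Unm (step G M m lam) x) : Unm M x := by
  intro b hb
  by_cases h : ∃ p, Sel G M m lam p ∧ x ∈ vs p
  · obtain ⟨p, hp, hxp⟩ := h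
    exact e5_matched hM hp hxp hx
  · push Not at h
    apply hx b
    rw [e5_step_adj hM]
    refine Or.inl ⟨hb, fun p hp => ⟨h p hp, fun hbp => ?_⟩⟩
    exact h p hp (h5_vs_closed hM hp.1.1 hbp hb.symm)

theorem step_card (hM : IsMat G M) {g : ℕ} (hg : (g : ℕ∞) ≤ G.egirth) {m : ℕ}
    (hm : 4 * m + 2 ≤ g) (lam : PT V → ℕ) :
    (unm (step G M m lam)).card + ((augs G M m).filter (Sel G M m lam)).card ≤
      (unm M).card := by
  have hex : ∀ p : PT V, p ∈ (augs G M m).filter (Sel G M m lam) → ∃ u ∈ vs p, Unm M u := by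
    intro p hp
    rw [mem_filter] at hp
    obtain ⟨-, -, h1, -⟩ := mem_augs.1 hp.1
    obtain ⟨i, hi, -⟩ := h5_lvl h1
    obtain ⟨u, hu, hu'⟩ := h5_unm i _ _ hi
    exact ⟨u, List.mem_append_left _ hu, hu'⟩
  choose f0 hf0 hf0' using hex
  let f : PT V → V := fun p =>
    if h : p ∈ (augs G M m).filter (Sel G M m lam) then f0 p h else p.1.1
  have hff : ∀ p (h : p ∈ (augs G M m).filter (Sel G M m lam)), f p = f0 p h :=
    fun p h => dif_pos h
  have hf : ∀ p, p ∈ (augs G M m).filter (Sel G M m lam) → f p ∈ vs p := by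
    intro p h
    rw [hff p h]
    exact hf0 p h
  have hf' : ∀ p, p ∈ (augs G M m).filter (Sel G M m lam) → Unm M (f p) := by
    intro p h
    rw [hff p h]
    exact hf0' p h
  have hinj : Set.InjOn f (((augs G M m).filter (Sel G M m lam) : Finset (PT V)) :
      Set (PT V)) := by
    intro p hp p' hp' heq
    rw [mem_coe] at hp hp'
    have h1 := hf p hp
    have h2 := hf p' hp'
    rw [← heq] at h2
    exact e5_disj (mem_filter.1 hp).2 (mem_filter.1 hp').2 h1 h2
  rw [← card_image_of_injOn hinj, ← card_union_of_disjoint]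
  · apply card_le_card
    intro x hx
    rw [mem_union] at hx
    rcases hx with hx | hx
    · rw [unm, mem_filter] at hx ⊢
      exact ⟨mem_univ _, step_unm hM hg hm lam hx.2⟩
    · rw [mem_image] at hx
      obtain ⟨p, hp, rfl⟩ := hx
      rw [unm, mem_filter]
      exact ⟨mem_univ _, hf' p hp⟩
  · rw [disjoint_left]
    intro x hx hx'
    rw [unm, mem_filter] at hx
    rw [mem_image] at hx'
    obtain ⟨p, hp, rfl⟩ := hx'
    exact e5_matched hM (mem_filter.1 hp).2 (hf p hp) hx.2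

end NM71
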