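import Pool.Agent.NM70.Rounds2
import Pool.Agent.NM71.Select
import Pool.Agent.NM71.Doubling
import Pool.Agent.NM71.Natural
import Pool.Agent.NM71.StepMat

set_option autoImplicit false

/-! V2-G: the rounds. -/

namespace NM71

open Finset Classical NM70

variable {V : Type*} [Fintype V] {G : SimpleGraph V}

theorem Mt_isMat {g : ℕ} (hg : (g : ℕ∞) ≤ G.egirth) {m : ℕ}
    (hm : 4 * m + 2 ≤ g) (lam : ℕ → PT V → ℕ) (t : ℕ) : IsMat G (Mt G m lam t) := by
  induction t with
  | zero => exact isMat_bot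
  | succ t ih => exact step_isMat ih hg hm _

theorem Mt_resp {g : ℕ} (hg : (g : ℕ∞) ≤ G.egirth) {m : ℕ} (hm : 4 * m + 2 ≤ g)
    (σ : Equiv.Perm V) (S : Set V) (hG : ∀ x ∈ S, ∀ y, G.Adj x y ↔ G.Adj (σ x) (σ y))
    (lam lam' : ℕ → PT V → ℕ) (t : ℕ)
    (hlam : ∀ s < t, ∀ p : PT V, p.1.1 ∈ S → (∀ v ∈ vs p, v ∈ S) →
      lam' s (pmap σ p) = lam s p) :
    ∀ x ∈ core G S (rad m * t), ∀ y,
      (Mt G m lam t).Adj x y ↔ (Mt G m lam' t).Adj (σ x) (σ y) := by
  induction t with
  | zero =>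
    intro x _ y
    simp [Mt]
  | succ t ih =>
    have h1 := ih fun s hs p => hlam s (by omega) p
    rw [Nat.mul_succ]
    exact step_resp (Mt_isMat hg hm lam t).le (Mt_isMat hg hm lam' t).le σ S hG _ h1 m _ _
      (hlam t (by omega))

theorem ND_pos (m : ℕ) : 0 < ND m := by
  unfold ND
  positivity

theorem WF_le (M : SimpleGraph V) (m : ℕ) (p : PT V) : WF G M m p ≤ ND m := by
  unfold WF ND
  have := WW_le (G := G) (M := M) m (KD m) (KD m) p
  omega

theorem conf_le {M : SimpleGraph V} (m : ℕ) (p0 : PT V) :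
    ∑ p ∈ augs G M m, (if ∃ v ∈ vs p0, v ∈ vs p then WF G M m p else 0) ≤
      pld G M m (WF G M m) p0 := by
  unfold pld ld
  have h2 : ∀ p ∈ augs G M m, (if ∃ v ∈ vs p0, v ∈ vs p then WF G M m p else 0) ≤
      ∑ v ∈ (vs p0).toFinset, if v ∈ vs p then WF G M m p else 0 := by
    intro p _
    by_cases h : ∃ v ∈ vs p0, v ∈ vs p
    · rw [if_pos h]
      obtain ⟨v, hv, hv'⟩ := h
      have h3 := single_le_sum (f := fun v => if v ∈ vs p then WF G M m p else 0)
        (fun i _ => Nat.zero_le _) (List.mem_toFinset.2 hv)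
      simpa only [hv', if_true] using h3
    · rw [if_neg h]
      exact Nat.zero_le _
  refine (sum_le_sum h2).trans (le_of_eq ?_)
  rw [sum_comm]
  refine sum_congr rfl fun v _ => ?_
  rw [sum_filter]

/-- The conflict sum is at most the sum of the squares of the loads. -/
theorem sum_sel (hc : Cubic G) {M : SimpleGraph V} (hM : IsMat G M) (m : ℕ) :
    (∑ p ∈ augs G M m, WF G M m p) * (ND m) ^ Fintype.card (PI V m) ≤
      2 * ND m * ∑ η : PI V m → Fin (ND m),
        ((augs G M m).filter (Sel G M m (lab1 η))).card := by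
  set th : PI V m → ℕ := fun c => if toPT c ∈ augs G M m then WF G M m (toPT c) else 0 with hth
  set R : PI V m → PI V m → Prop := fun c c' =>
    toPT c ∈ augs G M m ∧ ∃ v ∈ vs (toPT c), v ∈ vs (toPT c') with hRdef
  have hpt : ∀ f : PT V → ℕ, ∑ c : PI V m, (if toPT c ∈ augs G M m then f (toPT c) else 0) =
      ∑ p ∈ augs G M m, f p := by
    intro f
    rw [← sum_filter]
    have h2 : ∑ a ∈ univ.filter (fun a : PI V m => toPT a ∈ augs G M m), f (toPT a) =
        ∑ p ∈ (univ.filter (fun a : PI V m => toPT a ∈ augs G M m)).map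
          ⟨toPT, toPT_injective⟩, f p := by
      rw [sum_map]
      rfl
    rw [h2]
    refine sum_congr ?_ fun _ _ => rfl
    ext p
    rw [mem_map]
    constructor
    · rintro ⟨a, ha, rfl⟩
      exact (mem_filter.1 ha).2
    · intro hp
      obtain ⟨c, rfl⟩ := exists_toPT hp
      exact ⟨c, mem_filter.2 ⟨mem_univ _, hp⟩, rfl⟩
  have hthN : ∀ c, th c ≤ ND m := by
    intro c
    by_cases hcc : toPT c ∈ augs G M m
    · simp only [hth, hcc, if_true]
      exact WF_le M m _
    · simp only [hth, hcc, if_false]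
      exact Nat.zero_le _
  have hconf : ∀ c, ∀ Q : Finset (PI V m), (∀ q ∈ Q, R c q ∧ q ≠ c) →
      ∑ c' ∈ Q, th c' ≤ pld G M m (WF G M m) (toPT c) := by
    intro c Q hQ
    have h1 : ∑ c' ∈ Q, th c' ≤
        ∑ c' : PI V m, (if toPT c' ∈ augs G M m then
          (if ∃ v ∈ vs (toPT c), v ∈ vs (toPT c') then WF G M m (toPT c') else 0) else 0) := by
      refine le_trans ?_ (sum_le_sum_of_subset (subset_univ Q))
      refine sum_le_sum fun c' hc' => ?_
      rw [if_pos (hQ c' hc').1.2]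
    refine h1.trans ?_
    rw [hpt fun p => if ∃ v ∈ vs (toPT c), v ∈ vs p then WF G M m p else 0]
    exact conf_le m (toPT c)
  have hC : 2 * ∑ c, th c * pld G M m (WF G M m) (toPT c) ≤ ND m * ∑ c, th c := by
    have h1 : ∑ c, th c * pld G M m (WF G M m) (toPT c) =
        ∑ p ∈ augs G M m, WF G M m p * pld G M m (WF G M m) p := by
      rw [← hpt fun p => WF G M m p * pld G M m (WF G M m) p]
      refine sum_congr rfl fun c _ => ?_
      by_cases hcc : toPT c ∈ augs G M m
      · have h2 : th c = WF G M m (toPT c) := by simp only [hth, hcc, if_true]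
        rw [h2, if_pos hcc]
      · have h2 : th c = 0 := by simp only [hth, hcc, if_false]
        rw [h2, zero_mul, if_neg hcc]
    rw [h1, ← sum_ld_sq_eq]
    have h2 := sum_ld_sq hc hM m
    have h3 : ∑ c, th c = ∑ p ∈ augs G M m, WF G M m p := hpt (WF G M m)
    rw [h3]
    unfold ND
    calc 2 * ∑ v, (ld G M m (WF G M m) v) ^ 2
        ≤ 2 * (3 * 2 ^ KD m * ∑ p ∈ augs G M m, WF G M m p) :=
          Nat.mul_le_mul_left _ h2
      _ = _ := by ring
  have hsum : ∑ c, th c = ∑ p ∈ augs G M m, WF G M m p := hpt (WF G M m)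
  rw [← hsum]
  have hS : ∀ (η : PI V m → Fin (ND m)) (c : PI V m), (η c : ℕ) < th c →
      (∀ c', c' ≠ c → R c c' → ¬ ((η c' : ℕ) < th c')) →
      c ∈ univ.filter fun c : PI V m => toPT c ∈ (augs G M m).filter (Sel G M m (lab1 η)) := by
    intro η c h1 h2
    have hcc : toPT c ∈ augs G M m := by
      by_contra hcc
      simp only [hth, hcc, if_false] at h1
      exact absurd h1 (Nat.not_lt_zero _)
    simp only [hth, hcc, if_true] at h1
    rw [mem_filter, mem_filter]
    refine ⟨mem_univ _, hcc, ⟨hcc, ?_⟩, ?_⟩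
    · rw [lab1_toPT]
      exact h1
    · rintro p' ⟨hp', hp2⟩ hne v hv hv'
      obtain ⟨c', rfl⟩ := exists_toPT hp'
      rw [lab1_toPT] at hp2
      refine h2 c' (fun h => hne (by rw [h])) ⟨hcc, v, hv, hv'⟩ ?_
      simp only [hth, hp', if_true]
      exact hp2
  refine (select_abs2 (ND_pos m) th hthN R _ hconf hC _ hS).trans
    (Nat.mul_le_mul_left _ (sum_le_sum fun η _ => ?_))
  have hmap : (univ.filter fun c : PI V m =>
        toPT c ∈ (augs G M m).filter (Sel G M m (lab1 η))).map ⟨toPT, toPT_injective⟩ ⊆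
      (augs G M m).filter (Sel G M m (lab1 η)) := by
    intro p hp
    rw [mem_map] at hp
    obtain ⟨c, hcm, rfl⟩ := hp
    exact (mem_filter.1 hcm).2
  have := card_le_card hmap
  rwa [card_map] at this

theorem Mt_congr {m : ℕ} {lam lam' : ℕ → PT V → ℕ} {t : ℕ} (h : ∀ s < t, lam s = lam' s) :
    Mt G m lam t = Mt G m lam' t := by
  induction t with
  | zero => rfl
  | succ t ih =>
    unfold Mt
    rw [ih fun s hs => h s (by omega), h t (by omega)]

/-- The sum of the squares of the normalised loads. -/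
noncomputable def ZZ (G M : SimpleGraph V) (m : ℕ) : ℝ := ∑ v, (zz G M m v) ^ 2

theorem ZZ_nonneg (M : SimpleGraph V) (m : ℕ) : 0 ≤ ZZ G M m :=
  sum_nonneg fun _ _ => sq_nonneg _

theorem ZZ_le (hc : Cubic G) {M : SimpleGraph V} (hM : IsMat G M) (m : ℕ) :
    ZZ G M m * 2 ^ KD m ≤ 3 * ((∑ p ∈ augs G M m, WF G M m p : ℕ) : ℝ) := by
  have h1 : ZZ G M m * (2 ^ KD m * 2 ^ KD m) =
      ((∑ v, (ld G M m (WF G M m) v) ^ 2 : ℕ) : ℝ) := by
    unfold ZZ zz
    push_cast
    rw [sum_mul]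
    refine sum_congr rfl fun v _ => ?_
    rw [div_pow]
    have : (2 : ℝ) ^ KD m ≠ 0 := by positivity
    field_simp
  have h2 : ((∑ v, (ld G M m (WF G M m) v) ^ 2 : ℕ) : ℝ) ≤
      3 * 2 ^ KD m * ((∑ p ∈ augs G M m, WF G M m p : ℕ) : ℝ) := by
    exact_mod_cast sum_ld_sq hc hM m
  rw [← h1] at h2
  have h3 : (0 : ℝ) < 2 ^ KD m := by positivity
  have h4 : (ZZ G M m * 2 ^ KD m) * 2 ^ KD m ≤
      (3 * ((∑ p ∈ augs G M m, WF G M m p : ℕ) : ℝ)) * 2 ^ KD m := by
    linarith
  exact le_of_mul_le_mul_right h4 h3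

/-- One round, averaged. -/
theorem round_avg (hc : Cubic G) {g : ℕ} (hg : (g : ℕ∞) ≤ G.egirth) {m : ℕ}
    (hm : 4 * m + 2 ≤ g) {T : ℕ} (t : Fin T) :
    ∑ ω : Fin T × PI V m → Fin (ND m), ((unm (Mt G m (lab ω) (t + 1))).card : ℝ) ≤
      ∑ ω : Fin T × PI V m → Fin (ND m), (((unm (Mt G m (lab ω) t)).card : ℝ) -
        ZZ G (Mt G m (lab ω) t) m / 36) := by
  set H : ℝ := (Fintype.card (PI V m → Fin (ND m)) : ℝ) with hH
  have hHpos : 0 < H := by
    rw [hH]
    have : Nonempty (PI V m → Fin (ND m)) := ⟨fun _ => ⟨0, ND_pos m⟩⟩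
    exact_mod_cast Fintype.card_pos
  have key : ∀ ω : Fin T × PI V m → Fin (ND m),
      ∑ η : PI V m → Fin (ND m), ((unm (Mt G m (lab (upd t ω η)) (t + 1))).card : ℝ) ≤
      H * (((unm (Mt G m (lab ω) t)).card : ℝ) -
        ZZ G (Mt G m (lab ω) t) m / 36) := by
    intro ω
    set M := Mt G m (lab ω) t with hMdef
    have hM : IsMat G M := Mt_isMat hg hm _ _
    have h1 : ∀ η : PI V m → Fin (ND m), Mt G m (lab (upd t ω η)) (t + 1) =
        step G M m (lab1 η) := by
      intro η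
      have h2 : Mt G m (lab (upd t ω η)) t = M :=
        Mt_congr fun s hs => lab_upd_of_ne t ω η (by omega)
      change step G (Mt G m (lab (upd t ω η)) t) m (lab (upd t ω η) t) = _
      rw [h2, lab_upd]
    have h2 : ∀ η : PI V m → Fin (ND m),
        ((unm (Mt G m (lab (upd t ω η)) (t + 1))).card : ℝ) ≤
          ((unm M).card : ℝ) - (((augs G M m).filter (Sel G M m (lab1 η))).card : ℝ) := by
      intro η
      rw [h1 η]
      have := step_card hM hg hm (lab1 η)
      have h3 : ((unm (step G M m (lab1 η))).card : ℝ) +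
          (((augs G M m).filter (Sel G M m (lab1 η))).card : ℝ) ≤ ((unm M).card : ℝ) := by
        exact_mod_cast this
      linarith
    refine (sum_le_sum fun η _ => h2 η).trans ?_
    rw [sum_sub_distrib, sum_const, card_univ, nsmul_eq_mul, ← hH, mul_sub]
    have h3 := sum_sel hc hM m
    have h4 : ((∑ p ∈ augs G M m, WF G M m p : ℕ) : ℝ) * H ≤ 2 * (6 * 2 ^ KD m) *
        ∑ η : PI V m → Fin (ND m), (((augs G M m).filter (Sel G M m (lab1 η))).card : ℝ) := by
      have h5 : ((∑ p ∈ augs G M m, WF G M m p : ℕ) : ℝ) *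
          ((ND m : ℝ) ^ Fintype.card (PI V m)) ≤ 2 * (ND m : ℝ) *
          ((∑ η : PI V m → Fin (ND m),
            ((augs G M m).filter (Sel G M m (lab1 η))).card : ℕ) : ℝ) := by
        exact_mod_cast h3
      have h6 : H = (ND m : ℝ) ^ Fintype.card (PI V m) := by
        rw [hH, Fintype.card_fun, Fintype.card_fin]
        push_cast
        rfl
      have h7 : (ND m : ℝ) = 6 * 2 ^ KD m := by
        unfold ND
        push_cast
        rfl
      rw [h6, ← h7]
      refine h5.trans (le_of_eq ?_)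
      push_cast
      rfl
    have h5 := ZZ_le hc hM m
    have h8 : H * (ZZ G M m / 36) ≤
        ∑ η : PI V m → Fin (ND m), (((augs G M m).filter (Sel G M m (lab1 η))).card : ℝ) := by
      have h3 : (0 : ℝ) < 2 ^ KD m := by positivity
      set X := ∑ η : PI V m → Fin (ND m),
        (((augs G M m).filter (Sel G M m (lab1 η))).card : ℝ) with hX
      have h9 : (H * (ZZ G M m / 36)) * 2 ^ KD m ≤ X * 2 ^ KD m := by
        calc (H * (ZZ G M m / 36)) * 2 ^ KD m = (ZZ G M m * 2 ^ KD m) * H / 36 := by ring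
          _ ≤ (3 * ((∑ p ∈ augs G M m, WF G M m p : ℕ) : ℝ)) * H / 36 := by
            refine div_le_div_of_nonneg_right ?_ (by norm_num)
            exact mul_le_mul_of_nonneg_right h5 hHpos.le
          _ = (((∑ p ∈ augs G M m, WF G M m p : ℕ) : ℝ) * H) / 12 := by ring
          _ ≤ (2 * (6 * 2 ^ KD m) * X) / 12 := div_le_div_of_nonneg_right h4 (by norm_num)
          _ = _ := by ring
      exact le_of_mul_le_mul_right h9 h3
    linarith
  have h1 := sum_upd t fun ω : Fin T × PI V m → Fin (ND m) =>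
    ((unm (Mt G m (lab ω) (t + 1))).card : ℝ)
  have h2 := sum_le_sum fun ω (_ : ω ∈ (univ : Finset (Fin T × PI V m → Fin (ND m)))) => key ω
  rw [h1, ← mul_sum] at h2
  exact le_of_mul_le_mul_left h2 hHpos

end NM71
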