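import Pool.Agent.NM71.Defs

set_option autoImplicit false

/-! V2 HAND F: the energy argument in expectation, second version. -/

namespace NM71

open Finset Classical NM70

variable {V : Type*}

/-- Cauchy-Schwarz for averages of square roots. -/
theorem h12_avg_sqrt {Ω : Type*} [Fintype Ω] (f g : Ω → ℝ) (hf : ∀ ω, 0 ≤ f ω)
    (hg : ∀ ω, 0 ≤ g ω) :
    avg (fun ω => Real.sqrt (f ω * g ω)) ≤ Real.sqrt (avg f * avg g) := by
  have h1 : ∑ ω, Real.sqrt (f ω * g ω) ≤ Real.sqrt (∑ ω, f ω) * Real.sqrt (∑ ω, g ω) := by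
    have h := Real.sum_sqrt_mul_sqrt_le (s := (Finset.univ : Finset Ω)) (f := f) (g := g) hf hg
    refine le_trans (le_of_eq ?_) h
    exact Finset.sum_congr rfl fun ω _ => Real.sqrt_mul (hf ω) _
  have hf0 : 0 ≤ ∑ ω, f ω := Finset.sum_nonneg fun ω _ => hf ω
  have hg0 : 0 ≤ ∑ ω, g ω := Finset.sum_nonneg fun ω _ => hg ω
  unfold avg
  have h2 : (∑ ω, f ω) / (Fintype.card Ω : ℝ) * ((∑ ω, g ω) / (Fintype.card Ω : ℝ)) =
      ((∑ ω, f ω) * (∑ ω, g ω)) / (Fintype.card Ω : ℝ) ^ 2 := by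
    rw [div_mul_div_comm, sq]
  rw [h2, Real.sqrt_div (mul_nonneg hf0 hg0), Real.sqrt_sq (by positivity), Real.sqrt_mul hf0]
  exact div_le_div_of_nonneg_right h1 (by positivity)

theorem energy_expect2 [Fintype V] [Nonempty V] {Ω : Type*} [Fintype Ω] [Nonempty Ω]
    (G : SimpleGraph V) (hc : Cubic G) (F : Ω → V → ℝ) (u ζ : Ω → ℝ) (m : ℕ)
    (hF : ∀ ω x, 0 ≤ F ω x) (hu : ∀ ω, 0 ≤ u ω) (hζ : ∀ ω, 0 ≤ ζ ω)
    (h1 : ∀ ω x y, G.Adj x y → F ω x * F ω y = 0)
    (h2 : ∀ ω, (151 / 51 : ℝ) ^ 2 * ((∑ x, (F ω x) ^ 2) - u ω) ≤ ∑ y, (nsum G (F ω) y) ^ 2)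
    (h3 : ∀ ω, (51 / 50 : ℝ) ^ m * (u ω - 3 * Real.sqrt (ζ ω * u ω) -
      3 * Real.sqrt (ζ ω * ∑ y, (nsum G (F ω) y) ^ 2)) ≤ ∑ x, F ω x)
    (h4 : ∑ y, (avg (fun ω => (nsum G (F ω) y) ^ 2) - (avg fun ω => nsum G (F ω) y) ^ 2) ≤
      8 * ∑ x, (avg (fun ω => (F ω x) ^ 2) - (avg fun ω => F ω x) ^ 2))
    (h5 : ∀ x y, G.Adj x y → avg (fun ω => F ω x) = avg (fun ω => F ω y))
    (h6 : 64 * (Fintype.card V : ℝ) ≤ (51 / 50 : ℝ) ^ (2 * m) * avg u) :
    avg u ≤ 11000 * avg ζ := by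
  set X : ℝ := ∑ x, avg (fun ω => (F ω x) ^ 2) with hX
  set Y : ℝ := ∑ x, (avg fun ω => F ω x) ^ 2 with hY
  set Z : ℝ := ∑ y, avg (fun ω => (nsum G (F ω) y) ^ 2) with hZ
  have hns : ∀ y, avg (fun ω => nsum G (F ω) y) = 3 * avg (fun ω => F ω y) := by
    intro y
    rw [← h2_nsum_const G hc (fun z => avg (fun ω => F ω z)) y (avg fun ω => F ω y)
      (fun z hz => (h5 y z hz).symm)]
    unfold nsum
    rw [h2_avg_sum]
    refine Finset.sum_congr rfl fun z _ => ?_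
    by_cases h : G.Adj y z
    · simp [h]
    · simp only [h, if_false]
      exact h2_avg_const 0
  have hYsum : ∑ y, (avg fun ω => nsum G (F ω) y) ^ 2 = 9 * Y := by
    rw [hY, Finset.mul_sum]
    refine Finset.sum_congr rfl fun y _ => ?_
    rw [hns y]
    ring
  have h4' : Z - 9 * Y ≤ 8 * (X - Y) := by
    rw [Finset.sum_sub_distrib, Finset.sum_sub_distrib, hYsum] at h4
    exact h4
  have hcross : ∀ ω, ∑ y, F ω y * nsum G (F ω) y = 0 := by
    intro ω
    refine Finset.sum_eq_zero fun y _ => ?_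
    unfold nsum
    rw [Finset.mul_sum]
    refine Finset.sum_eq_zero fun z _ => ?_
    by_cases h : G.Adj y z
    · rw [if_pos h]
      exact h1 ω y z h
    · simp [h]
  -- the quadratic inequality
  have hquad : 0 ≤ (17 / 6 : ℝ) ^ 2 * (X - Y) - 2 * (17 / 6) * (3 * Y) + (Z - 9 * Y) := by
    have hy : ∀ y, avg (fun ω => ((17 / 6 : ℝ) * (F ω y - avg (fun ω => F ω y)) +
          (nsum G (F ω) y - 3 * avg (fun ω => F ω y))) ^ 2) =
        (17 / 6 : ℝ) ^ 2 * (avg (fun ω => (F ω y) ^ 2) - (avg fun ω => F ω y) ^ 2) +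
          2 * (17 / 6) * (avg (fun ω => F ω y * nsum G (F ω) y) -
            3 * (avg fun ω => F ω y) ^ 2) +
          (avg (fun ω => (nsum G (F ω) y) ^ 2) - 9 * (avg fun ω => F ω y) ^ 2) := by
      intro y
      have e : (fun ω => ((17 / 6 : ℝ) * (F ω y - avg (fun ω => F ω y)) +
          (nsum G (F ω) y - 3 * avg (fun ω => F ω y))) ^ 2) =
          fun ω => ((17 / 6 : ℝ) ^ 2 * (F ω y) ^ 2 +
            2 * (17 / 6) * (F ω y * nsum G (F ω) y)) + (nsum G (F ω) y) ^ 2 +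
            ((-(2 * (17 / 6 : ℝ) * (17 / 6 + 3) * avg (fun ω => F ω y))) * F ω y +
              (-(2 * (17 / 6 + 3 : ℝ) * avg (fun ω => F ω y))) * nsum G (F ω) y) +
            (17 / 6 + 3) ^ 2 * (avg fun ω => F ω y) ^ 2 := by
        funext ω
        ring
      rw [e]
      simp only [h2_avg_add, h2_avg_mul, h2_avg_const, hns]
      ring
    have hpos : 0 ≤ ∑ y, avg (fun ω => ((17 / 6 : ℝ) * (F ω y - avg (fun ω => F ω y)) +
          (nsum G (F ω) y - 3 * avg (fun ω => F ω y))) ^ 2) := by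
      refine Finset.sum_nonneg fun y _ => ?_
      have := h2_avg_mono (fun _ : Ω => (0 : ℝ)) (fun ω =>
        ((17 / 6 : ℝ) * (F ω y - avg (fun ω => F ω y)) +
          (nsum G (F ω) y - 3 * avg (fun ω => F ω y))) ^ 2) (fun ω => sq_nonneg _)
      rw [h2_avg_const] at this
      exact this
    have hcr : ∑ y, avg (fun ω => F ω y * nsum G (F ω) y) = 0 := by
      rw [← h2_avg_sum]
      simp only [hcross]
      exact h2_avg_const 0
    rw [Finset.sum_congr rfl fun y _ => hy y, Finset.sum_add_distrib, Finset.sum_add_distrib,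
      ← Finset.mul_sum, ← Finset.mul_sum, Finset.sum_sub_distrib, Finset.sum_sub_distrib,
      Finset.sum_sub_distrib, ← Finset.mul_sum, ← Finset.mul_sum, hcr] at hpos
    have : (0 : ℝ) - 3 * Y = -(3 * Y) := by ring
    simp only [← hX, ← hY, ← hZ] at hpos
    linarith
  have hZX : (151 / 51 : ℝ) ^ 2 * (X - avg u) ≤ Z := by
    have := h2_avg_mono _ _ h2
    rw [h2_avg_mul, h2_avg_sub, h2_avg_sum, h2_avg_sum] at this
    exact this
  have hm : (51 / 50 : ℝ) ^ m * (avg u - 3 * Real.sqrt (avg ζ * avg u) -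
      3 * Real.sqrt (avg ζ * Z)) ≤ ∑ x, avg (fun ω => F ω x) := by
    have h7 := h2_avg_mono _ _ h3
    rw [h2_avg_mul, h2_avg_sum, h2_avg_sub, h2_avg_sub, h2_avg_mul, h2_avg_mul] at h7
    have h8 := h12_avg_sqrt ζ u hζ hu
    have h9 := h12_avg_sqrt ζ (fun ω => ∑ y, (nsum G (F ω) y) ^ 2) hζ
      (fun ω => Finset.sum_nonneg fun y _ => sq_nonneg _)
    have h10 : avg (fun ω => ∑ y, (nsum G (F ω) y) ^ 2) = Z := by
      rw [hZ]
      exact h2_avg_sum _ _
    rw [h10] at h9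
    refine le_trans ?_ h7
    apply mul_le_mul_of_nonneg_left _ (by positivity)
    linarith
  have hcs : (∑ x, avg (fun ω => F ω x)) ^ 2 ≤ (Fintype.card V : ℝ) * Y := by
    have := sq_sum_le_card_mul_sum_sq (s := (Finset.univ : Finset V))
      (f := fun x => avg (fun ω => F ω x))
    rw [Finset.card_univ] at this
    exact this
  have hn : (0 : ℝ) < Fintype.card V := by
    have := Fintype.card_pos (α := V)
    exact_mod_cast this
  have hth : (0 : ℝ) < (51 / 50 : ℝ) ^ m := by positivity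
  have hth2 : (51 / 50 : ℝ) ^ (2 * m) = ((51 / 50 : ℝ) ^ m) ^ 2 := by
    rw [mul_comm, pow_mul]
  have hupos : 0 < avg u := by
    by_contra h
    push Not at h
    have : (51 / 50 : ℝ) ^ (2 * m) * avg u ≤ 0 :=
      mul_nonpos_of_nonneg_of_nonpos (by positivity) h
    nlinarith
  have hY0 : 0 ≤ Y := Finset.sum_nonneg fun x _ => sq_nonneg _
  have hYu : Y ≤ (15.15 : ℝ) * avg u := by
    nlinarith
  have hZu : Z ≤ (265 : ℝ) * avg u := by
    nlinarith
  have hz0 : 0 ≤ avg ζ := by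
    have := h2_avg_mono (fun _ : Ω => (0 : ℝ)) ζ hζ
    rw [h2_avg_const] at this
    exact this
  by_contra hlt
  push Not at hlt
  have hs1 : Real.sqrt (avg ζ * avg u) ≤ 0.00954 * avg u := by
    apply Real.sqrt_le_iff.2
    constructor
    · positivity
    · nlinarith
  have hs2 : Real.sqrt (avg ζ * Z) ≤ 0.1553 * avg u := by
    apply Real.sqrt_le_iff.2
    constructor
    · positivity
    · have h7 : avg ζ * Z ≤ avg ζ * (265 * avg u) := mul_le_mul_of_nonneg_left hZu hz0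
      nlinarith
  have hge : (51 / 50 : ℝ) ^ m * (0.505 * avg u) ≤ ∑ x, avg (fun ω => F ω x) := by
    refine le_trans ?_ hm
    apply mul_le_mul_of_nonneg_left _ hth.le
    linarith
  have hsq : ((51 / 50 : ℝ) ^ m * (0.505 * avg u)) ^ 2 ≤ (Fintype.card V : ℝ) * Y := by
    have h0 : 0 ≤ (51 / 50 : ℝ) ^ m * (0.505 * avg u) := by positivity
    have := pow_le_pow_left₀ h0 hge 2
    linarith
  rw [hth2] at h6
  have h7 : (Fintype.card V : ℝ) * Y ≤
      (((51 / 50 : ℝ) ^ m) ^ 2 * avg u / 64) * (15.15 * avg u) := by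
    apply mul_le_mul _ hYu hY0 (by positivity)
    linarith
  have h8 : ((51 / 50 : ℝ) ^ m * (0.505 * avg u)) ^ 2 =
      0.255025 * (((51 / 50 : ℝ) ^ m) ^ 2 * avg u ^ 2) := by ring
  have h9 : (((51 / 50 : ℝ) ^ m) ^ 2 * avg u / 64) * (15.15 * avg u) =
      0.23671875 * (((51 / 50 : ℝ) ^ m) ^ 2 * avg u ^ 2) := by ring
  have h10 : 0 < ((51 / 50 : ℝ) ^ m) ^ 2 * avg u ^ 2 := by positivity
  rw [h8] at hsq
  rw [h9] at h7
  linarith

end NM71
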