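import Pool.Agent.NM71.Extra
import Pool.Agent.NM71.Rounds
import Pool.Agent.NM71.Energy
import Pool.Agent.NM71.Spectral

set_option autoImplicit false

/-! V2-G: the energy argument applied to the random matching, and the recursion. -/

namespace NM71

open Finset Classical NM70

variable {V : Type*} [Fintype V] {G : SimpleGraph V}

theorem zz_nonneg (M : SimpleGraph V) (m : ℕ) (v : V) : 0 ≤ zz G M m v := by
  unfold zz
  positivity

/-- The normalised loads are a fractional hitting set. -/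
theorem hitting (M : SimpleGraph V) (m : ℕ) {p : PT V} (hp : p ∈ augs G M m) :
    1 ≤ cc (zz G M m) p.2.1 + cc (zz G M m) p.2.2 := by
  have h1 : (1 : ℝ) ≤ (pld G M m (WF G M m) p : ℝ) / 2 ^ KD m := by
    rw [le_div_iff₀ (by positivity), one_mul]
    exact_mod_cast blocked m hp
  have h2 : (pld G M m (WF G M m) p : ℝ) / 2 ^ KD m = ∑ v ∈ (vs p).toFinset, zz G M m v := by
    unfold pld zz
    push_cast
    rw [sum_div]
  have h3 : ∀ (z : V → ℝ), (∀ v, 0 ≤ z v) → ∀ l : List V,
      ∑ v ∈ l.toFinset, z v ≤ (l.map z).sum := by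
    intro z hz l
    induction l with
    | nil => simp
    | cons a l ih =>
      rw [List.toFinset_cons, List.map_cons, List.sum_cons]
      by_cases ha : a ∈ l.toFinset
      · rw [insert_eq_of_mem ha]
        have := hz a
        linarith
      · rw [sum_insert ha]
        linarith
  have h4 : cc (zz G M m) p.2.1 + cc (zz G M m) p.2.2 = ((vs p).map (zz G M m)).sum := by
    unfold cc vs
    rw [List.map_append, List.sum_append]
  rw [h4]
  exact h1.trans (h2.trans_le (h3 _ (zz_nonneg M m) _))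

/-- The means of the test function agree at adjacent vertices. -/
theorem gg_mean (hc : Cubic G) {g : ℕ} (hg : (g : ℕ∞) ≤ G.egirth) {m : ℕ}
    (hm : 4 * m + 2 ≤ g) {T N : ℕ} (t : ℕ) (hR : 2 * (rad m * (t + 1)) + 6 ≤ g)
    {x y : V} (hxy : G.Adj x y) :
    ∑ ω : Fin T × PI V m → Fin N, gg G (Mt G m (lab ω) t) m x =
      ∑ ω : Fin T × PI V m → Fin N, gg G (Mt G m (lab ω) t) m y := by
  set R := rad m * (t + 1) with hRdef
  obtain ⟨σ, hσ, hσ2⟩ := exists_flip hc hg (R + 1) (by omega) hxy
  set S : Set V := {z | ∀ w, G.Adj z w ↔ G.Adj (σ z) (σ w)} with hS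
  have hcore : x ∈ core G S R := by
    rw [mem_core_iff]
    intro z hz
    by_contra hzS
    obtain ⟨k, hk, hk', h⟩ := hσ2 z hzS
    rcases h with h | h
    · exact (not_near_of_desc hg hR hk hk' h).1 hz
    · exact (not_near_of_desc hg hR hk hk' h).2 hz
  have h1 : ∀ ω : Fin T × PI V m → Fin N, gg G (Mt G m (lab (wmap σ ω)) t) m x =
      gg G (Mt G m (lab ω) t) m y := by
    intro ω
    have h2 := Mt_resp hg hm σ S (fun z hz => hz) (lab (wmap σ ω)) (lab ω) t
      (fun s _ p _ _ => lab_wmap σ ω s p)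
    have h3 := gg_resp (Mt_isMat hg hm (lab (wmap σ ω)) t).le (Mt_isMat hg hm (lab ω) t).le σ S
      (fun z hz => hz) _ h2 m x (by rw [← Nat.mul_succ]; exact hcore)
    rw [h3, hσ]
  have h2 := (wmap_bijective (m := m) (T := T) (N := N) σ).sum_comp
    (fun ω => gg G (Mt G m (lab ω) t) m x)
  rw [← h2]
  exact sum_congr rfl fun ω _ => h1 ω

/-- The loads are large on average as long as there are many unmatched vertices. -/
theorem load_avg [Nonempty V] (hc : Cubic G) {g : ℕ} (hg : (g : ℕ∞) ≤ G.egirth) {m : ℕ}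
    (hm : 4 * m + 2 ≤ g) {T : ℕ} (t : ℕ) (hR : 2 * (rad m * (t + 1)) + 6 ≤ g)
    (hbig : 64 * (Fintype.card V : ℝ) ≤ (51 / 50 : ℝ) ^ (2 * m) *
      avg (fun ω : Fin T × PI V m → Fin (ND m) => ((unm (Mt G m (lab ω) t)).card : ℝ))) :
    avg (fun ω : Fin T × PI V m → Fin (ND m) => ((unm (Mt G m (lab ω) t)).card : ℝ)) ≤
      11000 * avg (fun ω : Fin T × PI V m → Fin (ND m) => ZZ G (Mt G m (lab ω) t) m) := by
  have : Nonempty (Fin (ND m)) := ⟨⟨0, ND_pos m⟩⟩
  have : Nonempty (Fin T × PI V m → Fin (ND m)) := ⟨fun _ => ⟨0, ND_pos m⟩⟩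
  refine energy_expect2 G hc (fun ω x => gg G (Mt G m (lab ω) t) m x) _ _ m
    (fun ω x => gz_nonneg _ m x) (fun ω => Nat.cast_nonneg _) (fun ω => ZZ_nonneg _ m)
    (fun ω x y h => gz_indep hc (Mt_isMat hg hm _ _) m _ (zz_nonneg _ m)
      (fun p hp => hitting _ m hp) h)
    (fun ω => gz_energy hc (Mt_isMat hg hm _ _) m _ (zz_nonneg _ m))
    (fun ω => gz_mass hc (Mt_isMat hg hm _ _) m _ (zz_nonneg _ m)
      (fun p hp => hitting _ m hp)) ?_ ?_ hbig
  · refine var_nbr G (fun ω x => gg G (Mt G m (lab ω) t) m x) ?_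
    intro c
    set v := c.2.1.1 with hv
    set R := rad m * (t + 1) with hRdef
    refine ⟨{x | Near G R v x}, fun h hh => quad_ball hc hg v R (by omega) h hh, ?_⟩
    intro x hx ω a
    set S : Set V := {z | z ≠ v} with hS
    have hcore : x ∈ core G S R := by
      rw [mem_core_iff]
      intro z hz hzv
      apply hx
      rw [hzv] at hz
      exact hz.symm
    have h2 := Mt_resp hg hm (Equiv.refl V) S (fun z _ w => Iff.rfl)
      (lab (Function.update ω c a)) (lab ω) t (fun s _ p hp _ => by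
        have h3 : pmap (Equiv.refl V) p = p := by
          obtain ⟨⟨x1, x2⟩, ⟨q, q'⟩⟩ := p
          simp [pmap]
        rw [h3]
        unfold lab
        by_cases h : s < T ∧ p.2.1.length ≤ 2 * m + 1 ∧ p.2.2.length ≤ 2 * m + 1
        · rw [dif_pos h, dif_pos h, Function.update_of_ne]
          intro h4
          apply hp
          rw [hv, ← h4]
        · rw [dif_neg h, dif_neg h])
    have h3 := gg_resp (Mt_isMat hg hm (lab (Function.update ω c a)) t).le
      (Mt_isMat hg hm (lab ω) t).le (Equiv.refl V) S (fun z _ w => Iff.rfl) _ h2 m x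
      (by rw [← Nat.mul_succ]; exact hcore)
    exact h3
  · intro x y hxy
    unfold avg
    rw [gg_mean hc hg hm t hR hxy]

theorem unm_avg_succ {g : ℕ} (hg : (g : ℕ∞) ≤ G.egirth) {m : ℕ}
    (hm : 4 * m + 2 ≤ g) {T : ℕ} (t : ℕ) :
    avg (fun ω : Fin T × PI V m → Fin (ND m) => ((unm (Mt G m (lab ω) (t + 1))).card : ℝ)) ≤
      avg (fun ω : Fin T × PI V m → Fin (ND m) => ((unm (Mt G m (lab ω) t)).card : ℝ)) := by
  refine avg_mono fun ω => ?_
  have := step_card (Mt_isMat hg hm (lab ω) t) hg hm (lab ω t)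
  have h2 : (unm (Mt G m (lab ω) (t + 1))).card ≤ (unm (Mt G m (lab ω) t)).card := by
    change (unm (step G (Mt G m (lab ω) t) m (lab ω t))).card ≤ _
    omega
  exact_mod_cast h2

/-- The number of unmatched vertices after `t` rounds. -/
theorem unm_avg [Nonempty V] (hc : Cubic G) {g : ℕ} (hg : (g : ℕ∞) ≤ G.egirth) {m : ℕ}
    (hm : 4 * m + 2 ≤ g) {T : ℕ} (hR : 2 * (rad m * T) + 6 ≤ g) (t : ℕ) (ht : t ≤ T) :
    avg (fun ω : Fin T × PI V m → Fin (ND m) => ((unm (Mt G m (lab ω) t)).card : ℝ)) ≤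
      max (64 * (50 / 51 : ℝ) ^ (2 * m)) ((1 - 1 / 480000) ^ t) *
        Fintype.card V := by
  have hn : (0 : ℝ) < Fintype.card V := by exact_mod_cast Fintype.card_pos
  have hq : (0 : ℝ) ≤ 1 - 1 / 480000 := by norm_num
  induction t with
  | zero =>
    rw [pow_zero]
    have h1 : avg (fun ω : Fin T × PI V m → Fin (ND m) =>
        ((unm (Mt G m (lab ω) 0)).card : ℝ)) ≤ Fintype.card V := by
      unfold avg
      have : Nonempty (Fin T × PI V m → Fin (ND m)) := ⟨fun _ => ⟨0, ND_pos m⟩⟩
      rw [div_le_iff₀ (by exact_mod_cast Fintype.card_pos)]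
      refine (sum_le_sum fun ω _ => ?_).trans (b := ∑ _ω : Fin T × PI V m → Fin (ND m),
        (Fintype.card V : ℝ)) ?_
      · exact_mod_cast card_le_univ _
      · rw [sum_const, card_univ, nsmul_eq_mul, mul_comm]
    refine h1.trans ?_
    have h2 : (1 : ℝ) ≤ max (64 * (50 / 51 : ℝ) ^ (2 * m)) 1 := le_max_right _ _
    nlinarith
  | succ t ih =>
    have ih' := ih (by omega)
    by_cases hbig : 64 * (Fintype.card V : ℝ) ≤ (51 / 50 : ℝ) ^ (2 * m) *
      avg (fun ω : Fin T × PI V m → Fin (ND m) => ((unm (Mt G m (lab ω) t)).card : ℝ))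
    · have h1 := load_avg (T := T) hc hg hm t (by
        have : rad m * (t + 1) ≤ rad m * T := Nat.mul_le_mul_left _ ht
        omega) hbig
      have h2 := round_avg hc hg hm (T := T) ⟨t, by omega⟩
      have h3 : avg (fun ω : Fin T × PI V m → Fin (ND m) =>
          ((unm (Mt G m (lab ω) (t + 1))).card : ℝ)) ≤
          avg (fun ω : Fin T × PI V m → Fin (ND m) => ((unm (Mt G m (lab ω) t)).card : ℝ)) -
          avg (fun ω : Fin T × PI V m → Fin (ND m) => ZZ G (Mt G m (lab ω) t) m) / 36 := by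
        unfold avg
        rw [div_right_comm, ← sub_div]
        refine div_le_div_of_nonneg_right (h2.trans (le_of_eq ?_)) (Nat.cast_nonneg _)
        rw [sum_sub_distrib, sum_div]
      set U := avg (fun ω : Fin T × PI V m → Fin (ND m) =>
        ((unm (Mt G m (lab ω) t)).card : ℝ)) with hU
      set O := avg (fun ω : Fin T × PI V m → Fin (ND m) => ZZ G (Mt G m (lab ω) t) m) with hO
      have hU0 : 0 ≤ U := by
        rw [hU]
        unfold avg
        exact div_nonneg (sum_nonneg fun ω _ => Nat.cast_nonneg _) (Nat.cast_nonneg _)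
      have h5 : avg (fun ω : Fin T × PI V m → Fin (ND m) =>
          ((unm (Mt G m (lab ω) (t + 1))).card : ℝ)) ≤ (1 - 1 / 480000) * U := by
        linarith
      refine h5.trans ?_
      rcases le_total (64 * (50 / 51 : ℝ) ^ (2 * m)) ((1 - 1 / 480000) ^ t) with h | h
      · rw [max_eq_right h] at ih'
        calc (1 - 1 / 480000) * U ≤ (1 - 1 / 480000) * ((1 - 1 / 480000) ^ t * Fintype.card V) :=
              mul_le_mul_of_nonneg_left ih' hq
          _ = (1 - 1 / 480000) ^ (t + 1) * Fintype.card V := by ring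
          _ ≤ _ := mul_le_mul_of_nonneg_right (le_max_right _ _) hn.le
      · rw [max_eq_left h] at ih'
        calc (1 - 1 / 480000) * U ≤ 1 * U := by
              refine mul_le_mul_of_nonneg_right ?_ hU0
              norm_num
          _ ≤ 64 * (50 / 51 : ℝ) ^ (2 * m) * Fintype.card V := by rw [one_mul]; exact ih'
          _ ≤ _ := mul_le_mul_of_nonneg_right (le_max_left _ _) hn.le
    · push Not at hbig
      refine (unm_avg_succ hg hm t).trans ?_
      have h1 : avg (fun ω : Fin T × PI V m → Fin (ND m) =>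
          ((unm (Mt G m (lab ω) t)).card : ℝ)) ≤
          64 * (50 / 51 : ℝ) ^ (2 * m) * Fintype.card V := by
        have h2 : (50 / 51 : ℝ) ^ (2 * m) * (51 / 50 : ℝ) ^ (2 * m) = 1 := by
          rw [← mul_pow]
          norm_num
        have h3 : (0 : ℝ) < (50 / 51 : ℝ) ^ (2 * m) := by positivity
        set U := avg (fun ω : Fin T × PI V m → Fin (ND m) =>
          ((unm (Mt G m (lab ω) t)).card : ℝ)) with hU
        calc U = (50 / 51 : ℝ) ^ (2 * m) * ((51 / 50 : ℝ) ^ (2 * m) * U) := by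
              rw [← mul_assoc, h2, one_mul]
          _ ≤ (50 / 51 : ℝ) ^ (2 * m) * (64 * (Fintype.card V : ℝ)) :=
              mul_le_mul_of_nonneg_left hbig.le h3.le
          _ = _ := by ring
      exact h1.trans (mul_le_mul_of_nonneg_right (le_max_left _ _) hn.le)

end NM71
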