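import Pool.Agent.NM70.Cycle
import Pool.Agent.NM71.Rec

set_option autoImplicit false

/-! V2-G: the final assembly. -/

namespace NM71

open Finset Classical NM70

variable {V : Type*} [Fintype V] {G : SimpleGraph V}

theorem bad_bound (hc : Cubic G) {g : ℕ} (hg : (g : ℕ∞) ≤ G.egirth) (m T N L h : ℕ)
    (hm : 4 * m + 2 ≤ g) (hh : 2 * h + 1 ≤ g) (hR : h + 2 * (rad m * T) + 6 ≤ g) (hh2 : 1 ≤ h)
    (v : V) :
    ((univ : Finset (Fin T × PI V m → Fin N)).filter fun ω =>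
        v ∈ bad G (Mt G m (lab ω) T) L).card * 2 ^ h ≤
      Fintype.card (Fin T × PI V m → Fin N) *
        (8 * L ^ 2 * 4 ^ (2 * (rad m * T) + 3)) := by
  refine bad_bound_gen hc hg (fun ω : Fin T × PI V m → Fin N => Mt G m (lab ω) T)
    (fun ω => Mt_isMat hg hm _ _) (rad m * T) ?_ L h hh hR hh2 v
  intro σ
  refine ⟨wmap σ, wmap_bijective σ, ?_⟩
  intro ω S hS
  exact Mt_resp hg hm σ S hS (lab (wmap σ ω)) (lab ω) T (fun s _ p _ _ => lab_wmap σ ω s p)

theorem bad_avg (hc : Cubic G) {g : ℕ} (hg : (g : ℕ∞) ≤ G.egirth) (m T : ℕ)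
    (hm : 4 * m + 2 ≤ g) (hR : 8 * (rad m * T) + 6 * m + 19 ≤ g) :
    avg (fun ω : Fin T × PI V m → Fin (ND m) =>
      ((bad G (Mt G m (lab ω) T) (2 ^ m)).card : ℝ)) ≤ (1 / 2) ^ m * Fintype.card V := by
  set R := rad m * T with hRdef
  have hΩ : Nonempty (Fin T × PI V m → Fin (ND m)) := ⟨fun _ => ⟨0, ND_pos m⟩⟩
  have hpos : (0 : ℝ) < Fintype.card (Fin T × PI V m → Fin (ND m)) := by
    exact_mod_cast Fintype.card_pos
  unfold avg
  rw [div_le_iff₀ hpos]
  have h1 : ∑ ω : Fin T × PI V m → Fin (ND m),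
      ((bad G (Mt G m (lab ω) T) (2 ^ m)).card : ℝ) =
      ∑ v : V, (((univ : Finset (Fin T × PI V m → Fin (ND m))).filter fun ω =>
        v ∈ bad G (Mt G m (lab ω) T) (2 ^ m)).card : ℝ) := by
    have h2 : ∀ ω : Fin T × PI V m → Fin (ND m),
        ((bad G (Mt G m (lab ω) T) (2 ^ m)).card : ℝ) =
          ∑ v : V, if v ∈ bad G (Mt G m (lab ω) T) (2 ^ m) then (1 : ℝ) else 0 := by
      intro ω
      rw [sum_boole, filter_mem_eq_inter, univ_inter]
    simp only [h2, card_filter]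
    rw [sum_comm]
    refine sum_congr rfl fun v _ => ?_
    push_cast
    rfl
  rw [h1]
  have h2 : ∀ v : V, (((univ : Finset (Fin T × PI V m → Fin (ND m))).filter fun ω =>
        v ∈ bad G (Mt G m (lab ω) T) (2 ^ m)).card : ℝ) ≤
      (1 / 2) ^ m * Fintype.card (Fin T × PI V m → Fin (ND m)) := by
    intro v
    have h3 := bad_bound hc hg m T (ND m) (2 ^ m) (4 * R + 3 * m + 9) hm (by omega) (by omega)
      (by omega) v
    have h4 : (((univ : Finset (Fin T × PI V m → Fin (ND m))).filter fun ω =>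
        v ∈ bad G (Mt G m (lab ω) T) (2 ^ m)).card : ℝ) * 2 ^ (4 * R + 3 * m + 9) ≤
        Fintype.card (Fin T × PI V m → Fin (ND m)) *
          (8 * (2 ^ m) ^ 2 * 4 ^ (2 * R + 3)) := by
      exact_mod_cast h3
    have h5 : (8 * (2 ^ m) ^ 2 * 4 ^ (2 * R + 3) : ℝ) =
        (1 / 2) ^ m * 2 ^ (4 * R + 3 * m + 9) := by
      have h6 : (2 : ℝ) ^ (4 * R + 3 * m + 9) = 2 ^ m * (8 * (2 ^ m) ^ 2 * 4 ^ (2 * R + 3)) := by
        have h7 : (4 : ℝ) = 2 ^ 2 := by norm_num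
        have h8 : (8 : ℝ) = 2 ^ 3 := by norm_num
        rw [h7, h8, ← pow_mul, ← pow_mul, ← pow_add, ← pow_add, ← pow_add]
        congr 1
        ring
      have h9 : (1 / 2 : ℝ) ^ m * 2 ^ m = 1 := by
        rw [← mul_pow]
        norm_num
      rw [h6]
      calc (8 * (2 ^ m) ^ 2 * 4 ^ (2 * R + 3) : ℝ)
          = 1 * (8 * (2 ^ m) ^ 2 * 4 ^ (2 * R + 3)) := by ring
        _ = (1 / 2 : ℝ) ^ m * 2 ^ m * (8 * (2 ^ m) ^ 2 * 4 ^ (2 * R + 3)) := by rw [h9]
        _ = _ := by ring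
    rw [h5] at h4
    have h6 : (0 : ℝ) < 2 ^ (4 * R + 3 * m + 9) := by positivity
    have h7 : (((univ : Finset (Fin T × PI V m → Fin (ND m))).filter fun ω =>
        v ∈ bad G (Mt G m (lab ω) T) (2 ^ m)).card : ℝ) * 2 ^ (4 * R + 3 * m + 9) ≤
        ((1 / 2) ^ m * Fintype.card (Fin T × PI V m → Fin (ND m))) *
          2 ^ (4 * R + 3 * m + 9) := by
      calc _ ≤ _ := h4
        _ = _ := by ring
    exact le_of_mul_le_mul_right h7 h6
  refine (sum_le_sum fun v _ => h2 v).trans (le_of_eq ?_)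
  rw [sum_const, card_univ, nsmul_eq_mul]
  ring

theorem pow_bound (m : ℕ) :
    (1 - 1 / 480000 : ℝ) ^ (20000 * m) ≤ (50 / 51 : ℝ) ^ (2 * m) := by
  have h1 : (1 - 1 / 480000 : ℝ) ≤ Real.exp (-(1 / 480000)) := by
    have := Real.add_one_le_exp (-(1 / 480000) : ℝ)
    linarith
  calc (1 - 1 / 480000 : ℝ) ^ (20000 * m) ≤ (Real.exp (-(1 / 480000))) ^ (20000 * m) :=
        pow_le_pow_left₀ (by norm_num) h1 _
    _ = (Real.exp (-(1 / 24))) ^ m := by
        rw [← Real.exp_nat_mul, ← Real.exp_nat_mul]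
        congr 1
        push_cast
        ring
    _ ≤ ((50 / 51 : ℝ) ^ 2) ^ m := by
        refine pow_le_pow_left₀ (Real.exp_pos _).le ?_ _
        have h2 := Real.add_one_le_exp (1 / 24 : ℝ)
        rw [Real.exp_neg]
        have h3 : (25 / 24 : ℝ) ≤ Real.exp (1 / 24) := by linarith
        calc (Real.exp (1 / 24))⁻¹ ≤ (25 / 24 : ℝ)⁻¹ := inv_anti₀ (by norm_num) h3
          _ ≤ _ := by norm_num
    _ = (50 / 51 : ℝ) ^ (2 * m) := by rw [← pow_mul]

theorem cover_m [Nonempty V] (hc : Cubic G) {g : ℕ} (hg : (g : ℕ∞) ≤ G.egirth) (m : ℕ)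
    (hR : 8 * (rad m * (20000 * m)) + 6 * m + 19 ≤ g) :
    HasPathCover G (258 * (50 / 51 : ℝ) ^ (2 * m) * Fintype.card V) := by
  set T := 20000 * m with hT
  have hm : 4 * m + 2 ≤ g := by omega
  have hn : (0 : ℝ) < Fintype.card V := by exact_mod_cast Fintype.card_pos
  have hΩ : Nonempty (Fin T × PI V m → Fin (ND m)) := ⟨fun _ => ⟨0, ND_pos m⟩⟩
  have h1 := unm_avg (T := T) hc hg hm (by omega) T le_rfl
  have h2 := bad_avg hc hg m T hm hR
  have h3 : (1 - 1 / 480000 : ℝ) ^ T ≤ (50 / 51 : ℝ) ^ (2 * m) := pow_bound m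
  have hq : (0 : ℝ) < (50 / 51 : ℝ) ^ (2 * m) := by positivity
  rw [max_eq_left (by linarith)] at h1
  have h4 : (1 / 2 : ℝ) ^ m ≤ (50 / 51 : ℝ) ^ (2 * m) := by
    rw [pow_mul]
    exact pow_le_pow_left₀ (by norm_num) (by norm_num) _
  obtain ⟨ω, hω⟩ := exists_le_avg' fun ω : Fin T × PI V m → Fin (ND m) =>
    4 * ((unm (Mt G m (lab ω) T)).card : ℝ) + ((bad G (Mt G m (lab ω) T) (2 ^ m)).card : ℝ)
  have h5 : avg (fun ω : Fin T × PI V m → Fin (ND m) =>
      4 * ((unm (Mt G m (lab ω) T)).card : ℝ) +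
        ((bad G (Mt G m (lab ω) T) (2 ^ m)).card : ℝ)) =
      4 * avg (fun ω : Fin T × PI V m → Fin (ND m) =>
        ((unm (Mt G m (lab ω) T)).card : ℝ)) +
      avg (fun ω : Fin T × PI V m → Fin (ND m) =>
        ((bad G (Mt G m (lab ω) T) (2 ^ m)).card : ℝ)) := by
    unfold avg
    rw [sum_add_distrib, ← mul_sum]
    ring
  rw [h5] at hω
  refine cover_mono ?_ (pathCover hc (Mt_isMat hg hm (lab ω) T) (2 ^ m))
  have h6 : (Fintype.card V : ℝ) / ((2 ^ m : ℕ) + 1) ≤ (1 / 2) ^ m * Fintype.card V := by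
    push_cast
    rw [one_div, inv_pow, div_eq_inv_mul]
    refine mul_le_mul_of_nonneg_right ?_ hn.le
    exact inv_anti₀ (by positivity) (by linarith)
  nlinarith

/-- Path covers of cubic graphs of girth at least `g`. -/
theorem main (hc : Cubic G) (g : ℕ) (hg : (g : ℕ∞) ≤ G.egirth) :
    HasPathCover G (300 * Fintype.card V * Real.exp (-((g : ℝ) ^ (1 / 3 : ℝ)) / 3500)) := by
  rcases isEmpty_or_nonempty V with hV | hV
  · refine cover_mono ?_ pathCover_trivial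
    rw [Fintype.card_eq_zero]
    simp
  have hn : (0 : ℝ) < Fintype.card V := by exact_mod_cast Fintype.card_pos
  have hex : ∃ k, g < 2560000 * (k + 1) ^ 3 := by
    refine ⟨g, ?_⟩
    have h1 : g + 1 ≤ (g + 1) ^ 3 := Nat.le_self_pow (by norm_num) _
    omega
  obtain ⟨k, hk1, hk2⟩ : ∃ k, g < 2560000 * (k + 1) ^ 3 ∧ (k = 0 ∨ 2560000 * k ^ 3 ≤ g) := by
    refine ⟨Nat.find hex, Nat.find_spec hex, ?_⟩
    rcases Nat.eq_zero_or_pos (Nat.find hex) with h | h
    · exact Or.inl h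
    · right
      have h1 := Nat.find_min hex (m := Nat.find hex - 1) (by omega)
      rw [Nat.sub_add_cancel h] at h1
      omega
  set x : ℝ := (g : ℝ) ^ (1 / 3 : ℝ) with hx
  have hx0 : 0 ≤ x := Real.rpow_nonneg (Nat.cast_nonneg g) _
  have hx3 : x ^ 3 = g := by
    rw [hx, ← Real.rpow_natCast, ← Real.rpow_mul (Nat.cast_nonneg g)]
    norm_num
  have hxk : x ≤ 136.8 * ((k : ℝ) + 1) := by
    by_contra hlt
    push Not at hlt
    have h1 : (136.8 * ((k : ℝ) + 1)) ^ 3 ≤ x ^ 3 :=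
      pow_le_pow_left₀ (by positivity) hlt.le 3
    rw [hx3, mul_pow] at h1
    have h2 : (g : ℝ) < 2560000 * ((k : ℝ) + 1) ^ 3 := by exact_mod_cast hk1
    have h3 : (0 : ℝ) < ((k : ℝ) + 1) ^ 3 := by positivity
    have h4 : (2560000 : ℝ) ≤ 136.8 ^ 3 := by norm_num
    nlinarith
  by_cases hk : k ≤ 2
  · refine cover_mono ?_ pathCover_trivial
    have h1 : (k : ℝ) ≤ 2 := by exact_mod_cast hk
    have h2 := Real.add_one_le_exp (-x / 3500)
    have h3 : (1 : ℝ) ≤ 300 * Real.exp (-x / 3500) := by linarith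
    nlinarith
  · push Not at hk
    obtain ⟨m, rfl⟩ : ∃ m, k = m + 2 := ⟨k - 2, by omega⟩
    have h1 : 2560000 * (m + 2) ^ 3 ≤ g := by
      rcases hk2 with h | h
      · omega
      · exact h
    have h2 : 8 * (rad m * (20000 * m)) + 6 * m + 19 ≤ 2560000 * (m + 2) ^ 3 := by
      have h4 : 2560000 * (m + 2) ^ 3 = 8 * (rad m * (20000 * m)) + 6 * m + 19 +
          (6400000 * m ^ 2 + 26879994 * m + 20479981) := by
        unfold rad
        ring
      omega
    refine cover_mono ?_ (cover_m hc hg m (h2.trans h1))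
    have h3 : (50 / 51 : ℝ) ^ (2 * m) ≤ Real.exp (-(2 * m / 51)) := by
      have h4 := Real.add_one_le_exp (-(1 / 51) : ℝ)
      have h5 : (50 / 51 : ℝ) ≤ Real.exp (-(1 / 51)) := by linarith
      calc (50 / 51 : ℝ) ^ (2 * m) ≤ (Real.exp (-(1 / 51))) ^ (2 * m) :=
            pow_le_pow_left₀ (by norm_num) h5 _
        _ = Real.exp (-(2 * m / 51)) := by
            rw [← Real.exp_nat_mul]
            congr 1
            push_cast
            ring
    have h4 : Real.exp (-(2 * m / 51)) ≤ Real.exp (6 / 51) * Real.exp (-x / 3500) := by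
      rw [← Real.exp_add]
      apply Real.exp_le_exp.2
      push_cast at hxk
      linarith
    have h5 : Real.exp (6 / 51) ≤ 51 / 45 := by
      have h6 := Real.add_one_le_exp (-(6 / 51) : ℝ)
      have h7 : (45 / 51 : ℝ) ≤ Real.exp (-(6 / 51)) := by linarith
      rw [Real.exp_neg] at h7
      have h8 := inv_anti₀ (by norm_num) h7
      rw [inv_inv] at h8
      calc Real.exp (6 / 51) ≤ (45 / 51 : ℝ)⁻¹ := h8
        _ = 51 / 45 := by norm_num
    have h6 : (0 : ℝ) < Real.exp (-x / 3500) := Real.exp_pos _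
    have h7 : (50 / 51 : ℝ) ^ (2 * m) ≤ 51 / 45 * Real.exp (-x / 3500) :=
      h3.trans (h4.trans (mul_le_mul_of_nonneg_right h5 h6.le))
    have h8 : 258 * (50 / 51 : ℝ) ^ (2 * m) ≤ 300 * Real.exp (-x / 3500) := by linarith
    calc 258 * (50 / 51 : ℝ) ^ (2 * m) * (Fintype.card V : ℝ)
        ≤ 300 * Real.exp (-x / 3500) * (Fintype.card V : ℝ) :=
          mul_le_mul_of_nonneg_right h8 hn.le
      _ = _ := by ring

end NM71
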